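import Pool.Agent.Z85.LMD.Grid

/-!
# The edges of the grid graph
-/

set_option autoImplicit false

namespace Pool.Agent.Z85.LMD

variable {R C : ℕ} {tap : ℕ → ℕ → Prop}

theorem A16_17 {i j : ℕ} (h : i ≤ R ∧ j ≤ C) :
    (GG R C tap).Adj (i, j, 16) (i, j, 17) := by
  refine ⟨?_, ?_, Or.inl ⟨(16, 17, 0, 0, 0), by decide, rfl, rfl, rfl, rfl, Or.inl rfl⟩⟩ <;>
  · unfold ok; dsimp only; omega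

theorem A16_18 {i j : ℕ} (h : i ≤ R ∧ j ≤ C) :
    (GG R C tap).Adj (i, j, 16) (i, j, 18) := by
  refine ⟨?_, ?_, Or.inl ⟨(16, 18, 0, 0, 0), by decide, rfl, rfl, rfl, rfl, Or.inl rfl⟩⟩ <;>
  · unfold ok; dsimp only; omega

theorem A17_18 {i j : ℕ} (h : i ≤ R ∧ j ≤ C) :
    (GG R C tap).Adj (i, j, 17) (i, j, 18) := by
  refine ⟨?_, ?_, Or.inl ⟨(17, 18, 0, 0, 0), by decide, rfl, rfl, rfl, rfl, Or.inl rfl⟩⟩ <;>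
  · unfold ok; dsimp only; omega

theorem A16_1 {i j : ℕ} (h : 1 ≤ i ∧ 1 ≤ j ∧ i ≤ R ∧ j ≤ C) :
    (GG R C tap).Adj (i, j, 16) (i, j, 1) := by
  refine ⟨?_, ?_, Or.inl ⟨(16, 1, 0, 0, 0), by decide, rfl, rfl, rfl, rfl, Or.inl rfl⟩⟩ <;>
  · unfold ok; dsimp only; omega

theorem A16_2 {i j : ℕ} (h : 1 ≤ i ∧ i ≤ R ∧ j < C ∧ (1 ≤ j ∨ i % 2 = 1)) :
    (GG R C tap).Adj (i, j, 16) (i, j, 2) := by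
  refine ⟨?_, ?_, Or.inl ⟨(16, 2, 0, 0, 2), by decide, rfl, rfl, rfl, rfl, Or.inr (Or.inr (Or.inl ⟨rfl, h.2.2.2⟩))⟩⟩ <;>
  · unfold ok; dsimp only; omega

theorem A16_4 {i j : ℕ} (h : 1 ≤ i ∧ i ≤ R ∧ j < C) :
    (GG R C tap).Adj (i, j, 16) (i, j, 4) := by
  refine ⟨?_, ?_, Or.inl ⟨(16, 4, 0, 0, 0), by decide, rfl, rfl, rfl, rfl, Or.inl rfl⟩⟩ <;>
  · unfold ok; dsimp only; omega

theorem A16_5 {i j : ℕ} (h : 1 ≤ i ∧ i ≤ R ∧ j < C) :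
    (GG R C tap).Adj (i, j, 16) (i, j, 5) := by
  refine ⟨?_, ?_, Or.inl ⟨(16, 5, 0, 0, 0), by decide, rfl, rfl, rfl, rfl, Or.inl rfl⟩⟩ <;>
  · unfold ok; dsimp only; omega

theorem B16_1 {i j : ℕ} (h : 1 ≤ j ∧ i + 1 ≤ R ∧ j ≤ C) :
    (GG R C tap).Adj (i, j, 16) (i + 1, j, 1) := by
  refine ⟨?_, ?_, Or.inl ⟨(16, 1, 1, 0, 0), by decide, rfl, rfl, rfl, rfl, Or.inl rfl⟩⟩ <;>
  · unfold ok; dsimp only; omega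

theorem B16_2 {i j : ℕ} (h : i + 1 ≤ R ∧ j < C ∧ (1 ≤ j ∨ i % 2 = 1)) :
    (GG R C tap).Adj (i, j, 16) (i + 1, j, 2) := by
  refine ⟨?_, ?_, Or.inl ⟨(16, 2, 1, 0, 2), by decide, rfl, rfl, rfl, rfl, Or.inr (Or.inr (Or.inl ⟨rfl, h.2.2⟩))⟩⟩ <;>
  · unfold ok; dsimp only; omega

theorem B16_4 {i j : ℕ} (h : i + 1 ≤ R ∧ j < C) :
    (GG R C tap).Adj (i, j, 16) (i + 1, j, 4) := by
  refine ⟨?_, ?_, Or.inl ⟨(16, 4, 1, 0, 0), by decide, rfl, rfl, rfl, rfl, Or.inl rfl⟩⟩ <;>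
  · unfold ok; dsimp only; omega

theorem B16_5 {i j : ℕ} (h : i + 1 ≤ R ∧ j < C) :
    (GG R C tap).Adj (i, j, 16) (i + 1, j, 5) := by
  refine ⟨?_, ?_, Or.inl ⟨(16, 5, 1, 0, 0), by decide, rfl, rfl, rfl, rfl, Or.inl rfl⟩⟩ <;>
  · unfold ok; dsimp only; omega

theorem B16_7 {i j : ℕ} (h : i + 1 ≤ R ∧ j < C) :
    (GG R C tap).Adj (i, j, 16) (i + 1, j, 7) := by
  refine ⟨?_, ?_, Or.inl ⟨(16, 7, 1, 0, 0), by decide, rfl, rfl, rfl, rfl, Or.inl rfl⟩⟩ <;>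
  · unfold ok; dsimp only; omega

theorem A16_8 {i j : ℕ} (h : 1 ≤ i ∧ 1 ≤ j ∧ i ≤ R ∧ j ≤ C) :
    (GG R C tap).Adj (i, j, 16) (i, j, 8) := by
  refine ⟨?_, ?_, Or.inl ⟨(16, 8, 0, 0, 0), by decide, rfl, rfl, rfl, rfl, Or.inl rfl⟩⟩ <;>
  · unfold ok; dsimp only; omega

theorem A16_9 {i j : ℕ} (h : 1 ≤ i ∧ 1 ≤ j ∧ i ≤ R ∧ j ≤ C) :
    (GG R C tap).Adj (i, j, 16) (i, j, 9) := by
  refine ⟨?_, ?_, Or.inl ⟨(16, 9, 0, 0, 0), by decide, rfl, rfl, rfl, rfl, Or.inl rfl⟩⟩ <;>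
  · unfold ok; dsimp only; omega

theorem A16_11 {i j : ℕ} (h : 1 ≤ i ∧ 1 ≤ j ∧ i < R ∧ j ≤ C) :
    (GG R C tap).Adj (i, j, 16) (i, j, 11) := by
  refine ⟨?_, ?_, Or.inl ⟨(16, 11, 0, 0, 0), by decide, rfl, rfl, rfl, rfl, Or.inl rfl⟩⟩ <;>
  · unfold ok; dsimp only; omega

theorem A16_12 {i j : ℕ} (h : 1 ≤ i ∧ 1 ≤ j ∧ i < R ∧ j ≤ C) :
    (GG R C tap).Adj (i, j, 16) (i, j, 12) := by
  refine ⟨?_, ?_, Or.inl ⟨(16, 12, 0, 0, 0), by decide, rfl, rfl, rfl, rfl, Or.inl rfl⟩⟩ <;>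
  · unfold ok; dsimp only; omega

theorem A16_14 {i j : ℕ} (h : 1 ≤ j ∧ i < R ∧ j ≤ C) :
    (GG R C tap).Adj (i, j, 16) (i, j, 14) := by
  refine ⟨?_, ?_, Or.inl ⟨(16, 14, 0, 0, 0), by decide, rfl, rfl, rfl, rfl, Or.inl rfl⟩⟩ <;>
  · unfold ok; dsimp only; omega

theorem C16_8 {i j : ℕ} (h : 1 ≤ i ∧ i ≤ R ∧ j + 1 ≤ C) :
    (GG R C tap).Adj (i, j, 16) (i, j + 1, 8) := by
  refine ⟨?_, ?_, Or.inl ⟨(16, 8, 0, 1, 0), by decide, rfl, rfl, rfl, rfl, Or.inl rfl⟩⟩ <;>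
  · unfold ok; dsimp only; omega

theorem C16_9 {i j : ℕ} (h : 1 ≤ i ∧ i ≤ R ∧ j + 1 ≤ C) :
    (GG R C tap).Adj (i, j, 16) (i, j + 1, 9) := by
  refine ⟨?_, ?_, Or.inl ⟨(16, 9, 0, 1, 0), by decide, rfl, rfl, rfl, rfl, Or.inl rfl⟩⟩ <;>
  · unfold ok; dsimp only; omega

theorem C16_11 {i j : ℕ} (h : 1 ≤ i ∧ i < R ∧ j + 1 ≤ C) :
    (GG R C tap).Adj (i, j, 16) (i, j + 1, 11) := by
  refine ⟨?_, ?_, Or.inl ⟨(16, 11, 0, 1, 0), by decide, rfl, rfl, rfl, rfl, Or.inl rfl⟩⟩ <;>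
  · unfold ok; dsimp only; omega

theorem C16_12 {i j : ℕ} (h : 1 ≤ i ∧ i < R ∧ j + 1 ≤ C) :
    (GG R C tap).Adj (i, j, 16) (i, j + 1, 12) := by
  refine ⟨?_, ?_, Or.inl ⟨(16, 12, 0, 1, 0), by decide, rfl, rfl, rfl, rfl, Or.inl rfl⟩⟩ <;>
  · unfold ok; dsimp only; omega

theorem C16_14 {i j : ℕ} (h : i < R ∧ j + 1 ≤ C) :
    (GG R C tap).Adj (i, j, 16) (i, j + 1, 14) := by
  refine ⟨?_, ?_, Or.inl ⟨(16, 14, 0, 1, 0), by decide, rfl, rfl, rfl, rfl, Or.inl rfl⟩⟩ <;>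
  · unfold ok; dsimp only; omega

theorem A16_15 {i j : ℕ} (h : 1 ≤ i ∧ i ≤ R ∧ j < C) :
    (GG R C tap).Adj (i, j, 16) (i, j, 15) := by
  refine ⟨?_, ?_, Or.inl ⟨(16, 15, 0, 0, 0), by decide, rfl, rfl, rfl, rfl, Or.inl rfl⟩⟩ <;>
  · unfold ok; dsimp only; omega

theorem A0_1 {i j : ℕ} (h : 1 ≤ i ∧ 1 ≤ j ∧ i ≤ R ∧ j ≤ C) :
    (GG R C tap).Adj (i, j, 0) (i, j, 1) := by
  refine ⟨?_, ?_, Or.inl ⟨(0, 1, 0, 0, 0), by decide, rfl, rfl, rfl, rfl, Or.inl rfl⟩⟩ <;>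
  · unfold ok; dsimp only; omega

theorem A1_2 {i j : ℕ} (h : 1 ≤ i ∧ 1 ≤ j ∧ i ≤ R ∧ j < C) :
    (GG R C tap).Adj (i, j, 1) (i, j, 2) := by
  refine ⟨?_, ?_, Or.inl ⟨(1, 2, 0, 0, 0), by decide, rfl, rfl, rfl, rfl, Or.inl rfl⟩⟩ <;>
  · unfold ok; dsimp only; omega

theorem A2_3 {i j : ℕ} (h : 1 ≤ i ∧ i ≤ R ∧ j < C) :
    (GG R C tap).Adj (i, j, 2) (i, j, 3) := by
  refine ⟨?_, ?_, Or.inl ⟨(2, 3, 0, 0, 0), by decide, rfl, rfl, rfl, rfl, Or.inl rfl⟩⟩ <;>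
  · unfold ok; dsimp only; omega

theorem A3_4 {i j : ℕ} (h : 1 ≤ i ∧ i ≤ R ∧ j < C) :
    (GG R C tap).Adj (i, j, 3) (i, j, 4) := by
  refine ⟨?_, ?_, Or.inl ⟨(3, 4, 0, 0, 0), by decide, rfl, rfl, rfl, rfl, Or.inl rfl⟩⟩ <;>
  · unfold ok; dsimp only; omega

theorem A4_5 {i j : ℕ} (h : 1 ≤ i ∧ i ≤ R ∧ j < C) :
    (GG R C tap).Adj (i, j, 4) (i, j, 5) := by
  refine ⟨?_, ?_, Or.inl ⟨(4, 5, 0, 0, 0), by decide, rfl, rfl, rfl, rfl, Or.inl rfl⟩⟩ <;>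
  · unfold ok; dsimp only; omega

theorem A5_6 {i j : ℕ} (h : 1 ≤ i ∧ i ≤ R ∧ j < C) :
    (GG R C tap).Adj (i, j, 5) (i, j, 6) := by
  refine ⟨?_, ?_, Or.inl ⟨(5, 6, 0, 0, 0), by decide, rfl, rfl, rfl, rfl, Or.inl rfl⟩⟩ <;>
  · unfold ok; dsimp only; omega

theorem A6_7 {i j : ℕ} (h : 1 ≤ i ∧ i ≤ R ∧ j < C) :
    (GG R C tap).Adj (i, j, 6) (i, j, 7) := by
  refine ⟨?_, ?_, Or.inl ⟨(6, 7, 0, 0, 0), by decide, rfl, rfl, rfl, rfl, Or.inl rfl⟩⟩ <;>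
  · unfold ok; dsimp only; omega

theorem C7_0 {i j : ℕ} (h : 1 ≤ i ∧ i ≤ R ∧ j + 1 ≤ C) :
    (GG R C tap).Adj (i, j, 7) (i, j + 1, 0) := by
  refine ⟨?_, ?_, Or.inl ⟨(7, 0, 0, 1, 0), by decide, rfl, rfl, rfl, rfl, Or.inl rfl⟩⟩ <;>
  · unfold ok; dsimp only; omega

theorem A0_8 {i j : ℕ} (h : 1 ≤ i ∧ 1 ≤ j ∧ i ≤ R ∧ j ≤ C) :
    (GG R C tap).Adj (i, j, 0) (i, j, 8) := by
  refine ⟨?_, ?_, Or.inl ⟨(0, 8, 0, 0, 0), by decide, rfl, rfl, rfl, rfl, Or.inl rfl⟩⟩ <;>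
  · unfold ok; dsimp only; omega

theorem A8_9 {i j : ℕ} (h : 1 ≤ i ∧ 1 ≤ j ∧ i ≤ R ∧ j ≤ C) :
    (GG R C tap).Adj (i, j, 8) (i, j, 9) := by
  refine ⟨?_, ?_, Or.inl ⟨(8, 9, 0, 0, 0), by decide, rfl, rfl, rfl, rfl, Or.inl rfl⟩⟩ <;>
  · unfold ok; dsimp only; omega

theorem A9_10 {i j : ℕ} (h : 1 ≤ i ∧ 1 ≤ j ∧ i < R ∧ j ≤ C) :
    (GG R C tap).Adj (i, j, 9) (i, j, 10) := by
  refine ⟨?_, ?_, Or.inl ⟨(9, 10, 0, 0, 0), by decide, rfl, rfl, rfl, rfl, Or.inl rfl⟩⟩ <;>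
  · unfold ok; dsimp only; omega

theorem A10_11 {i j : ℕ} (h : 1 ≤ i ∧ 1 ≤ j ∧ i < R ∧ j ≤ C) :
    (GG R C tap).Adj (i, j, 10) (i, j, 11) := by
  refine ⟨?_, ?_, Or.inl ⟨(10, 11, 0, 0, 0), by decide, rfl, rfl, rfl, rfl, Or.inl rfl⟩⟩ <;>
  · unfold ok; dsimp only; omega

theorem A11_12 {i j : ℕ} (h : 1 ≤ i ∧ 1 ≤ j ∧ i < R ∧ j ≤ C) :
    (GG R C tap).Adj (i, j, 11) (i, j, 12) := by
  refine ⟨?_, ?_, Or.inl ⟨(11, 12, 0, 0, 0), by decide, rfl, rfl, rfl, rfl, Or.inl rfl⟩⟩ <;>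
  · unfold ok; dsimp only; omega

theorem A12_13 {i j : ℕ} (h : 1 ≤ i ∧ 1 ≤ j ∧ i < R ∧ j ≤ C) :
    (GG R C tap).Adj (i, j, 12) (i, j, 13) := by
  refine ⟨?_, ?_, Or.inl ⟨(12, 13, 0, 0, 0), by decide, rfl, rfl, rfl, rfl, Or.inl rfl⟩⟩ <;>
  · unfold ok; dsimp only; omega

theorem A13_14 {i j : ℕ} (h : 1 ≤ i ∧ 1 ≤ j ∧ i < R ∧ j ≤ C) :
    (GG R C tap).Adj (i, j, 13) (i, j, 14) := by
  refine ⟨?_, ?_, Or.inl ⟨(13, 14, 0, 0, 0), by decide, rfl, rfl, rfl, rfl, Or.inl rfl⟩⟩ <;>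
  · unfold ok; dsimp only; omega

theorem B14_0 {i j : ℕ} (h : 1 ≤ j ∧ i + 1 ≤ R ∧ j ≤ C) :
    (GG R C tap).Adj (i, j, 14) (i + 1, j, 0) := by
  refine ⟨?_, ?_, Or.inl ⟨(14, 0, 1, 0, 0), by decide, rfl, rfl, rfl, rfl, Or.inl rfl⟩⟩ <;>
  · unfold ok; dsimp only; omega

theorem C15_8 {i j : ℕ} (h : 1 ≤ i ∧ i ≤ R ∧ j + 1 ≤ C) :
    (GG R C tap).Adj (i, j, 15) (i, j + 1, 8) := by
  refine ⟨?_, ?_, Or.inl ⟨(15, 8, 0, 1, 0), by decide, rfl, rfl, rfl, rfl, Or.inl rfl⟩⟩ <;>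
  · unfold ok; dsimp only; omega

theorem A6_15 {i j : ℕ} (h : 1 ≤ i ∧ i ≤ R ∧ j < C ∧ tap i j) :
    (GG R C tap).Adj (i, j, 6) (i, j, 15) := by
  refine ⟨?_, ?_, Or.inl ⟨(6, 15, 0, 0, 1), by decide, rfl, rfl, rfl, rfl, Or.inr (Or.inl ⟨rfl, h.2.2.2⟩)⟩⟩ <;>
  · unfold ok; dsimp only; omega

theorem B2_2 {i : ℕ} (h : 1 ≤ i ∧ i + 1 ≤ R ∧ 0 < C ∧ i % 2 = 1) :
    (GG R C tap).Adj (i, 0, 2) (i + 1, 0, 2) := by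
  refine ⟨?_, ?_, Or.inl ⟨(2, 2, 1, 0, 3), by decide, rfl, rfl, rfl, rfl, Or.inr (Or.inr (Or.inr ⟨rfl, rfl, h.2.2.2⟩))⟩⟩ <;>
  · unfold ok; dsimp only; omega

end Pool.Agent.Z85.LMD
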