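import Pool.Agent.Z85.LMD.Sound

/-!
# A satisfying assignment gives a small local metric generator of the grid graph
-/

set_option autoImplicit false

namespace Pool.Agent.Z85.LMD

variable {R C : ℕ} {tap : ℕ → ℕ → Prop}

open Classical in
/-- the landmarks -/
noncomputable def WW (R C : ℕ) (L : ℕ → Prop) (i0 : ℕ → ℕ) : Finset Lb :=
  (Finset.range (R + 1) ×ˢ Finset.range (C + 1)).image (fun p => (p.1, p.2, 17)) ∪
  (Finset.range R ×ˢ Finset.range C).image
    (fun p => if L (p.1 + 1) then (p.1 + 1, p.2, 6) else (p.1 + 1, p.2, 3)) ∪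
  (Finset.range (R - 1) ×ˢ Finset.range C).image
    (fun p => if p.1 + 1 < i0 p.2 then (p.1 + 1, p.2 + 1, 10) else (p.1 + 1, p.2 + 1, 13))

theorem WW_card (L : ℕ → Prop) (i0 : ℕ → ℕ) : (WW R C L i0).card ≤ KK R C := by
  classical
  unfold WW KK
  refine (Finset.card_union_le _ _).trans (add_le_add ((Finset.card_union_le _ _).trans
    (add_le_add ?_ ?_)) ?_) <;>
  · refine Finset.card_image_le.trans ?_
    rw [Finset.card_product]
    simp

section mem

variable {L : ℕ → Prop} {i0 : ℕ → ℕ}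

theorem w17 {i j : ℕ} (h : i ≤ R ∧ j ≤ C) : (i, j, 17) ∈ WW R C L i0 := by
  unfold WW
  simp only [Finset.mem_union, Finset.mem_image, Finset.mem_product, Finset.mem_range,
    Prod.exists]
  exact Or.inl (Or.inl ⟨i, j, ⟨by omega, by omega⟩, rfl⟩)

theorem wQ {i j : ℕ} (h : i + 1 ≤ R ∧ j < C) (hL : L (i + 1)) : (i + 1, j, 6) ∈ WW R C L i0 := by
  unfold WW
  simp only [Finset.mem_union, Finset.mem_image, Finset.mem_product, Finset.mem_range,
    Prod.exists]
  exact Or.inl (Or.inr ⟨i, j, ⟨by omega, by omega⟩, by simp [hL]⟩)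

theorem wP {i j : ℕ} (h : i + 1 ≤ R ∧ j < C) (hL : ¬ L (i + 1)) :
    (i + 1, j, 3) ∈ WW R C L i0 := by
  unfold WW
  simp only [Finset.mem_union, Finset.mem_image, Finset.mem_product, Finset.mem_range,
    Prod.exists]
  exact Or.inl (Or.inr ⟨i, j, ⟨by omega, by omega⟩, by simp [hL]⟩)

theorem wp {i j : ℕ} (h : 1 ≤ i ∧ i < R ∧ j < C) (hL : i < i0 j) :
    (i, j + 1, 10) ∈ WW R C L i0 := by
  unfold WW
  simp only [Finset.mem_union, Finset.mem_image, Finset.mem_product, Finset.mem_range,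
    Prod.exists]
  have h1 : i - 1 + 1 = i := by omega
  exact Or.inr ⟨i - 1, j, ⟨by omega, by omega⟩, by simp [h1, hL]⟩

theorem wR {i j : ℕ} (h : 1 ≤ i ∧ i < R ∧ j < C) (hL : ¬ i < i0 j) :
    (i, j + 1, 13) ∈ WW R C L i0 := by
  unfold WW
  simp only [Finset.mem_union, Finset.mem_image, Finset.mem_product, Finset.mem_range,
    Prod.exists]
  have h1 : i - 1 + 1 = i := by omega
  exact Or.inr ⟨i - 1, j, ⟨by omega, by omega⟩, by simp [h1, hL]⟩

end mem

theorem nohub {i j i' j' t : ℕ} (ht : t = 0 ∨ t = 3 ∨ t = 6 ∨ t = 10 ∨ t = 13) :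
    ¬ (GG R C tap).Adj (i', j', 16) (i, j, t) := by
  intro h
  rw [adj_iff'] at h
  obtain ⟨-, -, h⟩ := h
  simp [pats] at h
  omega

/-- the forced landmark of a hub resolves the edges with exactly one end adjacent to the hub -/
theorem res_hub {i j : ℕ} (h : i ≤ R ∧ j ≤ C) {v w : Lb} (hv : (GG R C tap).Adj (i, j, 16) v)
    (hw : ¬ (GG R C tap).Adj (i, j, 16) w) (hw' : w.2.2 < 16) :
    (GG R C tap).edist v (i, j, 17) ≠ (GG R C tap).edist w (i, j, 17) := by
  intro he
  have h1 : (GG R C tap).edist w (i, j, 17) ≤ (1 + 1 : ℕ) := by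
    rw [← he]
    exact L2 (by simp) hv.symm (A16_17 h)
  rcases exists_of_edist_le_succ h1 with h2 | ⟨b, h2, h3⟩
  · rw [h2] at hw'
    simp at hw'
  · rcases exists_of_edist_le_succ (n := 0) (by simpa using h3) with h4 | ⟨c, h4, h5⟩
    · rw [h4] at h2
      rcases nb17 h2.symm with h5 | h5 <;>
      · rw [h5] at hw'
        simp at hw'
    · rw [eq_of_edist_le_zero h5] at h4
      rcases nb17 h4.symm with h6 | h6
      · rw [h6] at h2
        exact hw h2.symm
      · rw [h6] at h2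
        rcases nb18 h2.symm with h5 | h5 <;>
        · rw [h5] at hw'
          simp at hw'

/-- the other landmarks resolve the edge between a hub and its second pendant vertex -/
theorem res_hb {i j : ℕ} (h : i ≤ R ∧ j ≤ C) {t : Lb} (ha : t ≠ (i, j, 17)) (hb : t ≠ (i, j, 18))
    (ht : (GG R C tap).edist (i, j, 16) t ≤ 3) :
    (GG R C tap).edist (i, j, 16) t ≠ (GG R C tap).edist (i, j, 18) t := by
  intro he
  have h1 : (GG R C tap).edist (i, j, 18) t ≠ ⊤ := by
    intro h1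
    rw [he, h1] at ht
    exact absurd ht (by simp)
  obtain ⟨d, hd⟩ := ENat.ne_top_iff_exists.1 h1
  have h2 : (GG R C tap).edist (i, j, 17) t = (GG R C tap).edist (i, j, 18) t := by
    by_contra h2
    rcases res_ab h h2 with h3 | h3
    · exact ha h3
    · exact hb h3
  rcases d with _ | n
  · have h3 := eq_of_edist_le_zero (u := (i, j, 18)) (v := t) (G := GG R C tap) (by rw [← hd])
    exact hb h3.symm
  · rcases exists_of_edist_le_succ (n := n) (by rw [← hd]) with h3 | ⟨s, h3, h4⟩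
    · exact hb h3.symm
    · rcases nb18 h3 with rfl | rfl
      · rw [he, ← hd] at h4
        have : n + 1 ≤ n := by exact_mod_cast h4
        omega
      · rw [h2, ← hd] at h4
        have : n + 1 ≤ n := by exact_mod_cast h4
        omega

section far

variable {V : Type} {G : SimpleGraph V}

theorem far2 {u v : V} (h0 : u ≠ v) (h1 : ¬ G.Adj u v)
    (h2 : ∀ a b, G.Adj u a → G.Adj v b → a ≠ b) : ¬ G.edist u v ≤ (2 : ℕ) := by
  intro h
  rcases exists_of_edist_le_succ (n := 1) h with h3 | ⟨a, h3, h4⟩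
  · exact h0 h3
  · rcases exists_of_edist_le_succ (n := 0) h4 with h5 | ⟨b, h5, h6⟩
    · exact h1 (h5 ▸ h3)
    · rw [eq_of_edist_le_zero h6] at h5
      exact h2 a a h3 h5.symm rfl

theorem far3 {u v : V} (h0 : u ≠ v) (h1 : ¬ G.Adj u v)
    (h2 : ∀ a b, G.Adj u a → G.Adj v b → a ≠ b)
    (h3 : ∀ a b, G.Adj u a → G.Adj v b → ¬ G.Adj b a) : ¬ G.edist u v ≤ (3 : ℕ) := by
  intro h
  rcases exists_of_edist_le_succ (n := 2) h with h4 | ⟨a, h4, h5⟩
  · exact h0 h4
  · rcases exists_of_edist_le_succ (n := 1) h5 with h6 | ⟨b, h6, h7⟩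
    · exact h1 (h6 ▸ h4)
    · rcases exists_of_edist_le_succ (n := 0) h7 with h8 | ⟨c, h8, h9⟩
      · exact h2 a a h4 (h8 ▸ h6).symm rfl
      · rw [eq_of_edist_le_zero h9] at h8
        exact h3 a b h4 h8.symm h6.symm

end far

/-- the end `Q` resolves the next edge `y Y` -/
theorem res_Q_yY {i j : ℕ} (h : i + 1 ≤ R ∧ j + 1 < C) :
    (GG R C tap).edist (i + 1, j + 1, 1) (i + 1, j, 6) ≠
      (GG R C tap).edist (i + 1, j + 1, 2) (i + 1, j, 6) := by
  intro he
  have h1 : (GG R C tap).edist (i + 1, j + 1, 1) (i + 1, j, 6) ≤ (3 : ℕ) :=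
    L3 (by simp) (A0_1 (by omega)).symm (C7_0 (by omega)).symm (A6_7 (by omega)).symm
  rw [he] at h1
  refine far3 (by simp) ?_ ?_ ?_ h1
  · intro h2
    rcases nb2 h2 with h3 | h3 | h3 | h3 <;> simp at h3
  · intro a b ha hb
    rcases nb2 ha with rfl | rfl | rfl | rfl <;> rcases nb6 hb with rfl | rfl | ⟨rfl, -⟩ <;> simp
  · intro a b ha hb hab
    rcases nb6 hb with rfl | rfl | ⟨rfl, -⟩
    · rcases nb2 ha with rfl | rfl | rfl | rfl <;> rcases nb5 hab with h3 | h3 | h3 | h3 <;>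
        simp at h3
    · rcases nb2 ha with rfl | rfl | rfl | rfl <;> rcases nb7 hab with h3 | h3 | h3 <;>
        simp at h3
    · rcases nb2 ha with rfl | rfl | rfl | rfl <;> rcases nb15 hab with h3 | h3 | ⟨h3, -⟩ <;>
        simp at h3

/-- the end `R` resolves the next edge `z Z` -/
theorem res_R_zZ {i j : ℕ} (h : 1 ≤ i ∧ i + 1 ≤ R ∧ j + 1 ≤ C) :
    (GG R C tap).edist (i + 1, j + 1, 8) (i, j + 1, 13) ≠
      (GG R C tap).edist (i + 1, j + 1, 9) (i, j + 1, 13) := by
  intro he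
  have h1 : (GG R C tap).edist (i + 1, j + 1, 8) (i, j + 1, 13) ≤ (3 : ℕ) :=
    L3 (by simp) (A0_8 (by omega)).symm (B14_0 (by omega)).symm (A13_14 (by omega)).symm
  rw [he] at h1
  refine far3 (by simp) ?_ ?_ ?_ h1
  · intro h2
    rcases nb9 h2 with h3 | h3 | h3 | h3 <;> simp at h3
  · intro a b ha hb
    rcases nb9 ha with rfl | rfl | rfl | rfl <;> rcases nb13 hb with rfl | rfl <;> simp
  · intro a b ha hb hab
    rcases nb13 hb with rfl | rfl
    · rcases nb9 ha with rfl | rfl | rfl | rfl <;> rcases nb12 hab with h3 | h3 | h3 | h3 <;>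
        simp at h3
    · rcases nb9 ha with rfl | rfl | rfl | rfl <;> rcases nb14 hab with h3 | h3 | h3 | h3 <;>
        simp at h3

/-- the end `Q` resolves the edge `z Z` of a tap -/
theorem res_Q_zZ {i j : ℕ} (h : i + 1 ≤ R ∧ j + 1 ≤ C) (ht : tap (i + 1) j) :
    (GG R C tap).edist (i + 1, j + 1, 8) (i + 1, j, 6) ≠
      (GG R C tap).edist (i + 1, j + 1, 9) (i + 1, j, 6) := by
  intro he
  have h1 : (GG R C tap).edist (i + 1, j + 1, 8) (i + 1, j, 6) ≤ (2 : ℕ) :=
    L2 (by simp) (C15_8 (by omega)).symm (A6_15 ⟨by omega, by omega, by omega, ht⟩).symm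
  rw [he] at h1
  refine far2 (by simp) ?_ ?_ h1
  · intro h2
    rcases nb9 h2 with h3 | h3 | h3 | h3 <;> simp at h3
  · intro a b ha hb
    rcases nb9 ha with rfl | rfl | rfl | rfl <;> rcases nb6 hb with rfl | rfl | ⟨rfl, -⟩ <;> simp

end Pool.Agent.Z85.LMD
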