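import Pool.Agent.Z85.LMD.Complete

/-!
# A satisfying assignment gives a small local metric generator of the grid graph: all edges
-/

set_option autoImplicit false

namespace Pool.Agent.Z85.LMD

variable {R C : ℕ} {tap : ℕ → ℕ → Prop} {L : ℕ → Prop} {i0 : ℕ → ℕ}

/-- edges at a hub -/
theorem case_hub {i j : ℕ} (h : i ≤ R ∧ j ≤ C) {w : Lb} (hw : w.2.2 < 16) :
    ∃ t ∈ WW R C L i0, (GG R C tap).edist (i, j, 16) t ≠ (GG R C tap).edist w t := by
  refine ⟨(i, j, 17), w17 h, res_adj (A16_17 h).symm ?_ ?_⟩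
  · intro h1
    rcases nb17 h1 with h2 | h2 <;>
    · rw [h2] at hw
      simp at hw
  · rintro rfl
    simp at hw

/-- the edge between a hub and its second pendant vertex -/
theorem case_hb (hR : 1 ≤ R) (hC : 1 ≤ C) {i j : ℕ} (h : i ≤ R ∧ j ≤ C) :
    ∃ t ∈ WW R C L i0, (GG R C tap).edist (i, j, 16) t ≠ (GG R C tap).edist (i, j, 18) t := by
  rcases Nat.lt_or_ge j C with h1 | h1
  · refine ⟨(i, j + 1, 17), w17 (by omega), res_hb h (by simp) (by simp) ?_⟩
    rcases Nat.lt_or_ge i R with h2 | h2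
    · exact ed3 (C16_14 (by omega)) (A16_14 (by omega)).symm (A16_17 (by omega))
    · exact ed3 (C16_8 (by omega)) (A16_8 (by omega)).symm (A16_17 (by omega))
  · obtain ⟨j, rfl⟩ : ∃ j', j = j' + 1 := ⟨j - 1, by omega⟩
    refine ⟨(i, j, 17), w17 (by omega), res_hb h (by simp) (by simp) ?_⟩
    rcases Nat.lt_or_ge i R with h2 | h2
    · exact ed3 (A16_14 (by omega)) (C16_14 (by omega)).symm (A16_17 (by omega))
    · exact ed3 (A16_8 (by omega)) (C16_8 (by omega)).symm (A16_17 (by omega))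

/-- an edge whose first end only is adjacent to a hub -/
theorem case_l {i j : ℕ} (h : i ≤ R ∧ j ≤ C) {v w : Lb} (hv : (GG R C tap).Adj (i, j, 16) v)
    (hw : ¬ (GG R C tap).Adj (i, j, 16) w) (hw' : w.2.2 < 16) :
    ∃ t ∈ WW R C L i0, (GG R C tap).edist v t ≠ (GG R C tap).edist w t :=
  ⟨(i, j, 17), w17 h, res_hub h hv hw hw'⟩

/-- an edge whose second end only is adjacent to a hub -/
theorem case_r {i j : ℕ} (h : i ≤ R ∧ j ≤ C) {v w : Lb} (hv : (GG R C tap).Adj (i, j, 16) v)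
    (hw : ¬ (GG R C tap).Adj (i, j, 16) w) (hw' : w.2.2 < 16) :
    ∃ t ∈ WW R C L i0, (GG R C tap).edist w t ≠ (GG R C tap).edist v t :=
  ⟨(i, j, 17), w17 h, (res_hub h hv hw hw').symm⟩

theorem complete_aux (hR : 1 ≤ R) (hC : 1 ≤ C)
    (hL : ∀ k, 2 * k + 2 ≤ R → ¬ (L (2 * k + 1) ∧ L (2 * k + 2)))
    (hi0 : ∀ j < C, 1 ≤ i0 j ∧ i0 j ≤ R ∧ tap (i0 j) j ∧ L (i0 j)) {v w : Lb}
    (hv : ok R C v) (hw : ok R C w) (h : E0 tap v w) :
    ∃ t ∈ WW R C L i0, (GG R C tap).edist v t ≠ (GG R C tap).edist w t := by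
  obtain ⟨i, j, t⟩ := v
  obtain ⟨i', j', t'⟩ := w
  obtain ⟨p, hp, h1, h2, h3, h4, hc⟩ := h
  dsimp only at h1 h2 h3 h4
  unfold ok at hv hw
  unfold cnd at hc
  dsimp only at hv hw hc
  simp only [pats, List.mem_cons, List.not_mem_nil, or_false] at hp
  rcases hp with rfl | rfl | rfl | rfl | rfl | rfl | rfl | rfl | rfl | rfl | rfl | rfl | rfl | rfl |
    rfl | rfl | rfl | rfl | rfl | rfl | rfl | rfl | rfl | rfl | rfl | rfl | rfl | rfl | rfl | rfl |
    rfl | rfl | rfl | rfl | rfl | rfl | rfl | rfl | rfl | rfl | rfl | rfl <;>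
  simp only [Nat.add_zero] at h1 h2 h3 h4 hc <;> replace h3 := h3.symm <;>
  replace h4 := h4.symm <;> subst h1 h2 h3 h4
  -- h a
  · exact ⟨(i, j, 17), w17 (by omega), (res_end (A16_17 (by omega)).symm).symm⟩
  -- h b
  · exact case_hb hR hC (by omega)
  -- a b
  · exact ⟨(i, j, 17), w17 (by omega), res_end (A17_18 (by omega))⟩
  -- h y, h Y, h x, h X
  · exact case_hub (by omega) (by simp)
  · exact case_hub (by omega) (by simp)
  · exact case_hub (by omega) (by simp)
  · exact case_hub (by omega) (by simp)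
  · exact case_hub (by omega) (by simp)
  · exact case_hub (by omega) (by simp)
  · exact case_hub (by omega) (by simp)
  · exact case_hub (by omega) (by simp)
  · exact case_hub (by omega) (by simp)
  · exact case_hub (by omega) (by simp)
  · exact case_hub (by omega) (by simp)
  · exact case_hub (by omega) (by simp)
  · exact case_hub (by omega) (by simp)
  · exact case_hub (by omega) (by simp)
  · exact case_hub (by omega) (by simp)
  · exact case_hub (by omega) (by simp)
  · exact case_hub (by omega) (by simp)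
  · exact case_hub (by omega) (by simp)
  · exact case_hub (by omega) (by simp)
  -- h r
  · exact case_hub (by omega) (by simp)
  -- c y
  · exact case_r (i := i) (j := j) (by omega) (A16_1 (by omega)) (nohub (by simp)) (by simp)
  -- y Y
  · obtain ⟨i, rfl⟩ : ∃ i', i = i' + 1 := ⟨i - 1, by omega⟩
    obtain ⟨j, rfl⟩ : ∃ j', j = j' + 1 := ⟨j - 1, by omega⟩
    by_cases hl : L (i + 1)
    · exact ⟨_, wQ (j := j) (by omega) hl, res_Q_yY (by omega)⟩
    · refine ⟨_, wP (j := j + 1) (by omega) hl, (res_adj (A2_3 (by omega)).symm ?_ (by simp)).symm⟩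
      intro h1
      rcases nb3 h1 with h2 | h2 <;> simp at h2
  -- Y P
  · by_cases hj : 1 ≤ j ∨ i % 2 = 1
    · exact case_l (i := i) (j := j) (by omega) (A16_2 (by omega)) (nohub (by simp)) (by simp)
    · obtain ⟨i, rfl⟩ : ∃ i', i = i' + 1 := ⟨i - 1, by omega⟩
      exact case_l (i := i) (j := j) (by omega) (B16_2 (by omega)) (nohub (by simp)) (by simp)
  -- P x
  · exact case_r (i := i) (j := j) (by omega) (A16_4 (by omega)) (nohub (by simp)) (by simp)
  -- x X
  · obtain ⟨i, rfl⟩ : ∃ i', i = i' + 1 := ⟨i - 1, by omega⟩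
    by_cases hl : L (i + 1)
    · refine ⟨_, wQ (j := j) (by omega) hl, (res_adj (A5_6 (by omega)).symm ?_ (by simp)).symm⟩
      intro h1
      rcases nb6 h1 with h2 | h2 | ⟨h2, -⟩ <;> simp at h2
    · refine ⟨_, wP (j := j) (by omega) hl, res_adj (A3_4 (by omega)) ?_ (by simp)⟩
      intro h1
      rcases nb3 h1 with h2 | h2 <;> simp at h2
  -- X Q
  · exact case_l (i := i) (j := j) (by omega) (A16_5 (by omega)) (nohub (by simp)) (by simp)
  -- Q q
  · obtain ⟨i, rfl⟩ : ∃ i', i = i' + 1 := ⟨i - 1, by omega⟩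
    exact case_r (i := i) (j := j) (by omega) (B16_7 (by omega)) (nohub (by simp)) (by simp)
  -- q c
  · obtain ⟨i, rfl⟩ : ∃ i', i = i' + 1 := ⟨i - 1, by omega⟩
    exact case_l (i := i) (j := j) (by omega) (B16_7 (by omega)) (nohub (by simp)) (by simp)
  -- c z
  · exact case_r (i := i) (j := j) (by omega) (A16_8 (by omega)) (nohub (by simp)) (by simp)
  -- z Z
  · obtain ⟨i, rfl⟩ : ∃ i', i = i' + 1 := ⟨i - 1, by omega⟩
    obtain ⟨j, rfl⟩ : ∃ j', j = j' + 1 := ⟨j - 1, by omega⟩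
    obtain ⟨k1, k2, k3, k4⟩ := hi0 j (by omega)
    rcases lt_trichotomy (i + 1) (i0 j) with h5 | h5 | h5
    · refine ⟨_, wp (i := i + 1) (j := j) (by omega) h5,
        (res_adj (A9_10 (by omega)).symm ?_ (by simp)).symm⟩
      intro h1
      rcases nb10 h1 with h2 | h2 <;> simp at h2
    · rw [← h5] at k3 k4
      exact ⟨_, wQ (j := j) (by omega) k4, res_Q_zZ (by omega) k3⟩
    · exact ⟨_, wR (i := i) (j := j) (by omega) (by omega), res_R_zZ (by omega)⟩
  -- Z p
  · exact case_l (i := i) (j := j) (by omega) (A16_9 (by omega)) (nohub (by simp)) (by simp)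
  -- p u
  · exact case_r (i := i) (j := j) (by omega) (A16_11 (by omega)) (nohub (by simp)) (by simp)
  -- u U
  · obtain ⟨j, rfl⟩ : ∃ j', j = j' + 1 := ⟨j - 1, by omega⟩
    by_cases hl : i < i0 j
    · refine ⟨_, wp (i := i) (j := j) (by omega) hl, res_adj (A10_11 (by omega)) ?_ (by simp)⟩
      intro h1
      rcases nb10 h1 with h2 | h2 <;> simp at h2
    · refine ⟨_, wR (i := i) (j := j) (by omega) hl,
        (res_adj (A12_13 (by omega)).symm ?_ (by simp)).symm⟩
      intro h1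
      rcases nb13 h1 with h2 | h2 <;> simp at h2
  -- U R
  · exact case_l (i := i) (j := j) (by omega) (A16_12 (by omega)) (nohub (by simp)) (by simp)
  -- R v
  · exact case_r (i := i) (j := j) (by omega) (A16_14 (by omega)) (nohub (by simp)) (by simp)
  -- v c
  · exact case_l (i := i) (j := j) (by omega) (A16_14 (by omega)) (nohub (by simp)) (by simp)
  -- r z
  · refine case_r (i := i) (j := j + 1) (by omega) (A16_8 (by omega)) ?_ (by simp)
    intro h1
    rcases nb15 h1.symm with h2 | h2 | ⟨h2, -⟩ <;> simp at h2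
  -- Q r
  · exact case_r (i := i) (j := j) (by omega) (A16_15 (by omega)) (nohub (by simp)) (by simp)
  -- Y Y
  · have hj : j = 0 := by omega
    subst hj
    obtain ⟨k, rfl⟩ : ∃ k, i = 2 * k + 1 := ⟨i / 2, by omega⟩
    by_cases hl : L (2 * k + 1)
    · have hl' : ¬ L (2 * k + 1 + 1) := fun h6 => hL k (by omega) ⟨hl, h6⟩
      refine ⟨_, wP (i := 2 * k + 1) (j := 0) (by omega) hl',
        (res_adj (A2_3 (by omega)).symm ?_ (by simp)).symm⟩
      intro h1
      rcases nb3 h1 with h2 | h2 <;> simp at h2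
    · refine ⟨_, wP (i := 2 * k) (j := 0) (by omega) hl, res_adj (A2_3 (by omega)).symm ?_ (by simp)⟩
      intro h1
      rcases nb3 h1 with h2 | h2 <;> simp at h2

theorem complete (hR : 1 ≤ R) (hC : 1 ≤ C)
    (hL : ∀ k, 2 * k + 2 ≤ R → ¬ (L (2 * k + 1) ∧ L (2 * k + 2)))
    (hi0 : ∀ j < C, 1 ≤ i0 j ∧ i0 j ≤ R ∧ tap (i0 j) j ∧ L (i0 j)) :
    IsLocalGen (GG R C tap) (WW R C L i0) := by
  rintro v w ⟨hv, hw, h | h⟩
  · exact complete_aux hR hC hL hi0 hv hw h
  · obtain ⟨t, ht, h1⟩ := complete_aux hR hC hL hi0 hw hv h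
    exact ⟨t, ht, h1.symm⟩

end Pool.Agent.Z85.LMD
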