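import Mathlib

/-!
# Local metric dimension and plane drawings: definitions
-/

set_option autoImplicit false

namespace Pool.Agent.Z85.LMD

/-- `W` is a local metric generator of `G`: for every edge `u v` there is some `w` in `W` whose
distances to `u` and to `v` are different.  (`edist` is the shortest-path distance, which is `∞` for
vertices in different components.) -/
def IsLocalGen {V : Type} (G : SimpleGraph V) (W : Finset V) : Prop :=
  ∀ u v, G.Adj u v → ∃ w ∈ W, G.edist u w ≠ G.edist v w

/-- The local metric dimension: the minimum size of a local metric generator. -/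
noncomputable def localDim {V : Type} (G : SimpleGraph V) : ℕ :=
  sInf {k | ∃ W : Finset V, IsLocalGen G W ∧ W.card = k}

/-- `pos` is a plane straight-line drawing of `G`: different vertices have different positions, no
vertex lies on an edge of which it is not an end, and two different edges meet at most in a common
end. -/
def IsPlaneDrawing {V : Type} (G : SimpleGraph V) (pos : V → ℝ × ℝ) : Prop :=
  Function.Injective pos ∧
  (∀ u v w, G.Adj u v → pos w ∈ segment ℝ (pos u) (pos v) → w = u ∨ w = v) ∧
  ∀ u v u' v', G.Adj u v → G.Adj u' v' → s(u, v) ≠ s(u', v') →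
    ∀ p, p ∈ segment ℝ (pos u) (pos v) → p ∈ segment ℝ (pos u') (pos v') →
      ∃ w, p = pos w ∧ (w = u ∨ w = v) ∧ (w = u' ∨ w = v')

/-- A graph is planar: it has a plane straight-line drawing (for finite graphs this is the usual
notion, by Fáry's theorem). -/
def IsPlanar {V : Type} (G : SimpleGraph V) : Prop := ∃ pos : V → ℝ × ℝ, IsPlaneDrawing G pos

/-! ### Distances -/

section

variable {V : Type} {G : SimpleGraph V}

theorem edist_le_len {u v : V} (p : G.Walk u v) : G.edist u v ≤ p.length := p.edist_le

theorem ed1 {u v : V} (h : G.Adj u v) : G.edist u v ≤ 1 := by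
  have := edist_le_len (SimpleGraph.Walk.cons h SimpleGraph.Walk.nil)
  simpa using this

theorem ed_step {u v w : V} {n : ℕ} (h : G.Adj u v) (h' : G.edist v w ≤ n) :
    G.edist u w ≤ (n + 1 : ℕ) := by
  have h1 := G.edist_triangle (u := u) (v := v) (w := w)
  calc G.edist u w ≤ G.edist u v + G.edist v w := h1
    _ ≤ 1 + n := add_le_add (ed1 h) h'
    _ = (n + 1 : ℕ) := by push_cast; rw [add_comm]

theorem ed2 {u m v : V} (h : G.Adj u m) (h' : G.Adj m v) : G.edist u v ≤ 2 :=
  ed_step (n := 1) h (ed1 h')

theorem ed3 {u m m' v : V} (h : G.Adj u m) (h1 : G.Adj m m') (h' : G.Adj m' v) :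
    G.edist u v ≤ 3 := ed_step (n := 2) h (ed2 h1 h')

theorem ed4 {u m m' m'' v : V} (h : G.Adj u m) (h1 : G.Adj m m') (h2 : G.Adj m' m'')
    (h' : G.Adj m'' v) : G.edist u v ≤ 4 := ed_step (n := 3) h (ed3 h1 h2 h')

/-- The last vertex outside `S` on a shortest path. -/
theorem shield_aux {S : V → Prop} {σ : V → ℕ} {x x' : V} (hx : S x) (h0 : σ x = 0)
    (h : ∀ a, S a → ∀ b, G.Adj a b → (S b ∧ σ b ≤ σ a + 1) ∨ G.edist b x' ≤ (σ a + 1 : ℕ))
    {t : V} (p : G.Walk t x) : (S t ∧ σ t ≤ p.length) ∨ G.edist t x' ≤ p.length := by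
  induction p with
  | nil => exact Or.inl ⟨hx, by simp [h0]⟩
  | @cons u v w hh p ih =>
    rcases ih hx h0 with ⟨h1, h2⟩ | h1
    · rcases h v h1 u hh.symm with ⟨h3, h4⟩ | h3
      · exact Or.inl ⟨h3, by rw [SimpleGraph.Walk.length_cons]; omega⟩
      · right
        refine h3.trans ?_
        rw [SimpleGraph.Walk.length_cons]
        exact_mod_cast Nat.add_le_add_right h2 1
    · right
      rw [SimpleGraph.Walk.length_cons]
      exact ed_step hh h1

/-- If all short detours around `S` exist, then no vertex outside `S` distinguishes `x` and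
`x'`. -/
theorem shield {S : V → Prop} {σ : V → ℕ} {x x' : V} (hx : S x) (hx' : S x') (h0 : σ x = 0)
    (h0' : σ x' = 0)
    (h : ∀ a, S a → ∀ b, G.Adj a b → (S b ∧ σ b ≤ σ a + 1) ∨
      (G.edist b x ≤ (σ a + 1 : ℕ) ∧ G.edist b x' ≤ (σ a + 1 : ℕ)))
    {t : V} (ht : G.edist x t ≠ G.edist x' t) : S t := by
  by_contra hS
  apply ht
  rw [G.edist_comm (u := x), G.edist_comm (u := x')]
  apply le_antisymm
  · apply le_iInf
    intro p
    rcases shield_aux (x' := x) hx' h0' (fun a ha b hb => by
      rcases h a ha b hb with h1 | h1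
      · exact Or.inl h1
      · exact Or.inr h1.1) p with h1 | h1
    · exact absurd h1.1 hS
    · exact h1
  · apply le_iInf
    intro p
    rcases shield_aux (x' := x') hx h0 (fun a ha b hb => by
      rcases h a ha b hb with h1 | h1
      · exact Or.inl h1
      · exact Or.inr h1.2) p with h1 | h1
    · exact absurd h1.1 hS
    · exact h1

/-- distance at most `n + 1` -/
theorem exists_of_edist_le_succ {u v : V} {n : ℕ} (h : G.edist u v ≤ (n + 1 : ℕ)) :
    u = v ∨ ∃ a, G.Adj u a ∧ G.edist a v ≤ n := by
  have hne : G.edist u v ≠ ⊤ := by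
    intro h1
    rw [h1] at h
    exact absurd h (by simp)
  obtain ⟨p, hp⟩ := SimpleGraph.exists_walk_of_edist_ne_top hne
  cases p with
  | nil => exact Or.inl rfl
  | @cons _ a _ hh p =>
    right
    refine ⟨a, hh, (edist_le_len p).trans ?_⟩
    rw [← hp, SimpleGraph.Walk.length_cons] at h
    have h2 : p.length + 1 ≤ n + 1 := by exact_mod_cast h
    exact_mod_cast Nat.le_of_succ_le_succ h2

theorem eq_of_edist_le_zero {u v : V} (h : G.edist u v ≤ (0 : ℕ)) : u = v := by
  have h1 : G.edist u v = 0 := le_antisymm (by exact_mod_cast h) bot_le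
  exact SimpleGraph.edist_eq_zero_iff.1 h1

/-- a vertex of the landmark set which is an end of the edge -/
theorem res_end {u v : V} (h : G.Adj u v) : G.edist u u ≠ G.edist v u := by
  rw [SimpleGraph.edist_self]
  intro h1
  exact h.ne (SimpleGraph.edist_eq_zero_iff.1 h1.symm).symm

/-- a landmark adjacent to exactly one end of the edge -/
theorem res_adj {u v w : V} (h : G.Adj w u) (h' : ¬ G.Adj w v) (h'' : v ≠ w) :
    G.edist u w ≠ G.edist v w := by
  intro h1
  have h2 : G.edist v w ≤ (0 + 1 : ℕ) := by
    rw [← h1]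
    exact ed1 h.symm
  rcases exists_of_edist_le_succ h2 with h3 | ⟨a, h3, h4⟩
  · exact h'' h3
  · rw [eq_of_edist_le_zero h4] at h3
    exact h' h3.symm

end

end Pool.Agent.Z85.LMD
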