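import Pool.Agent.Z85.LMD.Defs

/-!
# The grid graph

Labels of vertices are triples `(i, j, t)`, where `t < 19` is the kind of the vertex.  The kinds:
`0` crossing vertex `c`; horizontal wire to the right of `c(i,j)`: `1,2` (the edge `y Y`),
`3` `P`, `4,5` (the edge `x X`), `6` `Q`, `7` `q`, then `c(i,j+1)`; vertical wire below `c(i,j)`:
`8,9` (the edge `z Z`), `10` `p`, `11,12` (the edge `u U`), `13` `R`, `14` `v`, then `c(i+1,j)`;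
`15` `r`; `16` hub `h` of the face to the lower right of `c(i,j)`, with pendant triangle `17,18`.
-/

set_option autoImplicit false

namespace Pool.Agent.Z85.LMD

/-- labels of vertices -/
abbrev Lb : Type := ℕ × ℕ × ℕ

/-- the kinds of edges: kinds of the two ends, the shift of the indices from the first end to the
second one, and the kind of the condition -/
def pats : List (ℕ × ℕ × ℕ × ℕ × ℕ) :=
  [(16, 17, 0, 0, 0), (16, 18, 0, 0, 0), (17, 18, 0, 0, 0),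
    (16, 1, 0, 0, 0), (16, 2, 0, 0, 2), (16, 4, 0, 0, 0), (16, 5, 0, 0, 0),
    (16, 1, 1, 0, 0), (16, 2, 1, 0, 2), (16, 4, 1, 0, 0), (16, 5, 1, 0, 0), (16, 7, 1, 0, 0),
    (16, 8, 0, 0, 0), (16, 9, 0, 0, 0), (16, 11, 0, 0, 0), (16, 12, 0, 0, 0), (16, 14, 0, 0, 0),
    (16, 8, 0, 1, 0), (16, 9, 0, 1, 0), (16, 11, 0, 1, 0), (16, 12, 0, 1, 0), (16, 14, 0, 1, 0),
    (16, 15, 0, 0, 0),
    (0, 1, 0, 0, 0), (1, 2, 0, 0, 0), (2, 3, 0, 0, 0), (3, 4, 0, 0, 0), (4, 5, 0, 0, 0),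
    (5, 6, 0, 0, 0), (6, 7, 0, 0, 0), (7, 0, 0, 1, 0),
    (0, 8, 0, 0, 0), (8, 9, 0, 0, 0), (9, 10, 0, 0, 0), (10, 11, 0, 0, 0), (11, 12, 0, 0, 0),
    (12, 13, 0, 0, 0), (13, 14, 0, 0, 0), (14, 0, 1, 0, 0),
    (15, 8, 0, 1, 0), (6, 15, 0, 0, 1), (2, 2, 1, 0, 3)]

/-- the vertices of the graph with `R` rows and `C` columns -/
def ok (R C : ℕ) (v : Lb) : Prop :=
  ((v.2.2 = 0 ∨ v.2.2 = 1 ∨ v.2.2 = 8 ∨ v.2.2 = 9) ∧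
    1 ≤ v.1 ∧ v.1 ≤ R ∧ 1 ≤ v.2.1 ∧ v.2.1 ≤ C) ∨
  ((v.2.2 = 2 ∨ v.2.2 = 3 ∨ v.2.2 = 4 ∨ v.2.2 = 5 ∨ v.2.2 = 6 ∨ v.2.2 = 7 ∨ v.2.2 = 15) ∧
    1 ≤ v.1 ∧ v.1 ≤ R ∧ v.2.1 < C) ∨
  ((v.2.2 = 10 ∨ v.2.2 = 11 ∨ v.2.2 = 12 ∨ v.2.2 = 13) ∧
    1 ≤ v.1 ∧ v.1 < R ∧ 1 ≤ v.2.1 ∧ v.2.1 ≤ C) ∨
  (v.2.2 = 14 ∧ v.1 < R ∧ 1 ≤ v.2.1 ∧ v.2.1 ≤ C) ∨
  ((v.2.2 = 16 ∨ v.2.2 = 17 ∨ v.2.2 = 18) ∧ v.1 ≤ R ∧ v.2.1 ≤ C)

/-- the condition of a kind of edges -/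
def cnd (tap : ℕ → ℕ → Prop) (k : ℕ) (v : Lb) : Prop :=
  k = 0 ∨ (k = 1 ∧ tap v.1 v.2.1) ∨ (k = 2 ∧ (1 ≤ v.2.1 ∨ v.1 % 2 = 1)) ∨
    (k = 3 ∧ v.2.1 = 0 ∧ v.1 % 2 = 1)

/-- the edges, oriented -/
def E0 (tap : ℕ → ℕ → Prop) (v w : Lb) : Prop :=
  ∃ p ∈ pats, v.2.2 = p.1 ∧ w.2.2 = p.2.1 ∧ w.1 = v.1 + p.2.2.1 ∧ w.2.1 = v.2.1 + p.2.2.2.1 ∧
    cnd tap p.2.2.2.2 v

theorem E0_irrefl {tap : ℕ → ℕ → Prop} {v : Lb} : ¬ E0 tap v v := by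
  obtain ⟨i, j, t⟩ := v
  intro h
  simp only [E0, pats, List.mem_cons, List.not_mem_nil, or_false, exists_eq_or_imp, cnd,
    exists_eq_left] at h
  omega

/-- the graph -/
def GG (R C : ℕ) (tap : ℕ → ℕ → Prop) : SimpleGraph Lb where
  Adj v w := ok R C v ∧ ok R C w ∧ (E0 tap v w ∨ E0 tap w v)
  symm := ⟨fun _ _ h => ⟨h.2.1, h.1, h.2.2.symm⟩⟩
  loopless := ⟨fun _ h => h.2.2.elim E0_irrefl E0_irrefl⟩

variable {R C : ℕ} {tap : ℕ → ℕ → Prop}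

theorem adj_iff {v w : Lb} : (GG R C tap).Adj v w ↔ ok R C v ∧ ok R C w ∧
    (E0 tap v w ∨ E0 tap w v) := Iff.rfl

theorem adj_iff' {i j t i' j' t' : ℕ} : (GG R C tap).Adj (i, j, t) (i', j', t') ↔
    ok R C (i, j, t) ∧ ok R C (i', j', t') ∧
    ((∃ p ∈ pats, t = p.1 ∧ t' = p.2.1 ∧ i' = i + p.2.2.1 ∧ j' = j + p.2.2.2.1 ∧
      cnd tap p.2.2.2.2 (i, j, t)) ∨
    (∃ p ∈ pats, t' = p.1 ∧ t = p.2.1 ∧ i = i' + p.2.2.1 ∧ j = j' + p.2.2.2.1 ∧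
      cnd tap p.2.2.2.2 (i', j', t'))) := Iff.rfl

theorem nb0 {i j : ℕ} {w : Lb} (h : (GG R C tap).Adj (i + 1, j + 1, 0) w) :
    w = (i + 1, j + 1, 1) ∨ w = (i + 1, j, 7) ∨ w = (i + 1, j + 1, 8) ∨ w = (i, j + 1, 14) := by
  obtain ⟨i', j', t'⟩ := w
  rw [adj_iff'] at h
  obtain ⟨h1, h2, h⟩ := h
  simp [pats, cnd] at h
  simp only [Prod.mk.injEq]
  omega

theorem nb1 {i j : ℕ} {w : Lb} (h : (GG R C tap).Adj (i + 1, j + 1, 1) w) :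
    w = (i + 1, j + 1, 0) ∨ w = (i + 1, j + 1, 2) ∨ w = (i + 1, j + 1, 16) ∨ w = (i, j + 1, 16) := by
  obtain ⟨i', j', t'⟩ := w
  rw [adj_iff'] at h
  obtain ⟨h1, h2, h⟩ := h
  simp [pats, cnd] at h
  simp only [Prod.mk.injEq]
  omega

theorem nb2 {i j : ℕ} {w : Lb} (h : (GG R C tap).Adj (i + 1, j + 1, 2) w) :
    w = (i + 1, j + 1, 1) ∨ w = (i + 1, j + 1, 3) ∨ w = (i + 1, j + 1, 16) ∨ w = (i, j + 1, 16) := by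
  obtain ⟨i', j', t'⟩ := w
  rw [adj_iff'] at h
  obtain ⟨h1, h2, h⟩ := h
  simp [pats, cnd] at h
  simp only [Prod.mk.injEq]
  omega

theorem nb3 {i j : ℕ} {w : Lb} (h : (GG R C tap).Adj (i, j, 3) w) :
    w = (i, j, 2) ∨ w = (i, j, 4) := by
  obtain ⟨i', j', t'⟩ := w
  rw [adj_iff'] at h
  obtain ⟨h1, h2, h⟩ := h
  simp [pats, cnd] at h
  simp only [Prod.mk.injEq]
  omega

theorem nb4 {i j : ℕ} {w : Lb} (h : (GG R C tap).Adj (i + 1, j, 4) w) :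
    w = (i + 1, j, 3) ∨ w = (i + 1, j, 5) ∨ w = (i + 1, j, 16) ∨ w = (i, j, 16) := by
  obtain ⟨i', j', t'⟩ := w
  rw [adj_iff'] at h
  obtain ⟨h1, h2, h⟩ := h
  simp [pats, cnd] at h
  simp only [Prod.mk.injEq]
  omega

theorem nb5 {i j : ℕ} {w : Lb} (h : (GG R C tap).Adj (i + 1, j, 5) w) :
    w = (i + 1, j, 4) ∨ w = (i + 1, j, 6) ∨ w = (i + 1, j, 16) ∨ w = (i, j, 16) := by
  obtain ⟨i', j', t'⟩ := w
  rw [adj_iff'] at h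
  obtain ⟨h1, h2, h⟩ := h
  simp [pats, cnd] at h
  simp only [Prod.mk.injEq]
  omega

theorem nb6 {i j : ℕ} {w : Lb} (h : (GG R C tap).Adj (i, j, 6) w) :
    w = (i, j, 5) ∨ w = (i, j, 7) ∨ (w = (i, j, 15) ∧ tap i j) := by
  obtain ⟨i', j', t'⟩ := w
  rw [adj_iff'] at h
  obtain ⟨h1, h2, h⟩ := h
  simp [pats, cnd] at h
  simp only [Prod.mk.injEq]
  by_cases ht : tap i j
  · simp only [ht, and_true]
    omega
  · simp only [ht, and_false, or_false] at h ⊢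
    omega

theorem nb7 {i j : ℕ} {w : Lb} (h : (GG R C tap).Adj (i + 1, j, 7) w) :
    w = (i + 1, j, 6) ∨ w = (i + 1, j + 1, 0) ∨ w = (i, j, 16) := by
  obtain ⟨i', j', t'⟩ := w
  rw [adj_iff'] at h
  obtain ⟨h1, h2, h⟩ := h
  simp [pats, cnd] at h
  simp only [Prod.mk.injEq]
  omega

theorem nb8 {i j : ℕ} {w : Lb} (h : (GG R C tap).Adj (i, j + 1, 8) w) :
    w = (i, j + 1, 0) ∨ w = (i, j + 1, 9) ∨ w = (i, j + 1, 16) ∨ w = (i, j, 16) ∨ w = (i, j, 15) := by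
  obtain ⟨i', j', t'⟩ := w
  rw [adj_iff'] at h
  obtain ⟨h1, h2, h⟩ := h
  simp [pats, cnd] at h
  simp only [Prod.mk.injEq]
  omega

theorem nb9 {i j : ℕ} {w : Lb} (h : (GG R C tap).Adj (i, j + 1, 9) w) :
    w = (i, j + 1, 8) ∨ w = (i, j + 1, 10) ∨ w = (i, j + 1, 16) ∨ w = (i, j, 16) := by
  obtain ⟨i', j', t'⟩ := w
  rw [adj_iff'] at h
  obtain ⟨h1, h2, h⟩ := h
  simp [pats, cnd] at h
  simp only [Prod.mk.injEq]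
  omega

theorem nb10 {i j : ℕ} {w : Lb} (h : (GG R C tap).Adj (i, j, 10) w) :
    w = (i, j, 9) ∨ w = (i, j, 11) := by
  obtain ⟨i', j', t'⟩ := w
  rw [adj_iff'] at h
  obtain ⟨h1, h2, h⟩ := h
  simp [pats, cnd] at h
  simp only [Prod.mk.injEq]
  omega

theorem nb11 {i j : ℕ} {w : Lb} (h : (GG R C tap).Adj (i, j + 1, 11) w) :
    w = (i, j + 1, 10) ∨ w = (i, j + 1, 12) ∨ w = (i, j + 1, 16) ∨ w = (i, j, 16) := by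
  obtain ⟨i', j', t'⟩ := w
  rw [adj_iff'] at h
  obtain ⟨h1, h2, h⟩ := h
  simp [pats, cnd] at h
  simp only [Prod.mk.injEq]
  omega

theorem nb12 {i j : ℕ} {w : Lb} (h : (GG R C tap).Adj (i, j + 1, 12) w) :
    w = (i, j + 1, 11) ∨ w = (i, j + 1, 13) ∨ w = (i, j + 1, 16) ∨ w = (i, j, 16) := by
  obtain ⟨i', j', t'⟩ := w
  rw [adj_iff'] at h
  obtain ⟨h1, h2, h⟩ := h
  simp [pats, cnd] at h
  simp only [Prod.mk.injEq]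
  omega

theorem nb13 {i j : ℕ} {w : Lb} (h : (GG R C tap).Adj (i, j, 13) w) :
    w = (i, j, 12) ∨ w = (i, j, 14) := by
  obtain ⟨i', j', t'⟩ := w
  rw [adj_iff'] at h
  obtain ⟨h1, h2, h⟩ := h
  simp [pats, cnd] at h
  simp only [Prod.mk.injEq]
  omega

theorem nb14 {i j : ℕ} {w : Lb} (h : (GG R C tap).Adj (i, j + 1, 14) w) :
    w = (i, j + 1, 13) ∨ w = (i + 1, j + 1, 0) ∨ w = (i, j + 1, 16) ∨ w = (i, j, 16) := by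
  obtain ⟨i', j', t'⟩ := w
  rw [adj_iff'] at h
  obtain ⟨h1, h2, h⟩ := h
  simp [pats, cnd] at h
  simp only [Prod.mk.injEq]
  omega

theorem nb15 {i j : ℕ} {w : Lb} (h : (GG R C tap).Adj (i, j, 15) w) :
    w = (i, j, 16) ∨ w = (i, j + 1, 8) ∨ (w = (i, j, 6) ∧ tap i j) := by
  obtain ⟨i', j', t'⟩ := w
  rw [adj_iff'] at h
  obtain ⟨h1, h2, h⟩ := h
  simp [pats, cnd] at h
  simp only [Prod.mk.injEq]
  rcases h with h | h | ⟨rfl, rfl, rfl, h⟩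
  · omega
  · omega
  · simp [h]

theorem nb17 {i j : ℕ} {w : Lb} (h : (GG R C tap).Adj (i, j, 17) w) :
    w = (i, j, 16) ∨ w = (i, j, 18) := by
  obtain ⟨i', j', t'⟩ := w
  rw [adj_iff'] at h
  obtain ⟨h1, h2, h⟩ := h
  simp [pats, cnd] at h
  simp only [Prod.mk.injEq]
  omega

theorem nb18 {i j : ℕ} {w : Lb} (h : (GG R C tap).Adj (i, j, 18) w) :
    w = (i, j, 16) ∨ w = (i, j, 17) := by
  obtain ⟨i', j', t'⟩ := w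
  rw [adj_iff'] at h
  obtain ⟨h1, h2, h⟩ := h
  simp [pats, cnd] at h
  simp only [Prod.mk.injEq]
  omega

theorem nb2a {k : ℕ} {w : Lb} (h : (GG R C tap).Adj (2 * k + 1, 0, 2) w) :
    w = (2 * k + 1, 0, 3) ∨ w = (2 * k + 1, 0, 16) ∨ w = (2 * k + 2, 0, 2) := by
  obtain ⟨i', j', t'⟩ := w
  rw [adj_iff'] at h
  obtain ⟨h1, h2, h⟩ := h
  simp [pats, cnd] at h
  simp [ok] at h2
  simp only [Prod.mk.injEq]
  omega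

theorem nb2b {k : ℕ} {w : Lb} (h : (GG R C tap).Adj (2 * k + 2, 0, 2) w) :
    w = (2 * k + 2, 0, 3) ∨ w = (2 * k + 1, 0, 16) ∨ w = (2 * k + 1, 0, 2) := by
  obtain ⟨i', j', t'⟩ := w
  rw [adj_iff'] at h
  obtain ⟨h1, h2, h⟩ := h
  simp [pats, cnd] at h
  simp [ok] at h2
  simp only [Prod.mk.injEq]
  omega

end Pool.Agent.Z85.LMD
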