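import Pool.Agent.Z85.LMD.Grid

/-!
# The plane drawing of the grid graph: the finite check
-/

set_option autoImplicit false

namespace Pool.Agent.Z85.LMD

/-- the positions in the cell -/
def tab : List (ℤ × ℤ) :=
  [(0, 0), (3, 0), (6, 0), (9, 0), (12, 0), (15, 0), (18, 0), (21, 0), (0, 3), (0, 6), (0, 9),
    (0, 12), (0, 15), (0, 18), (0, 21), (20, 4), (12, 12), (15, 20), (17, 20)]

/-- the position of the vertex of kind `t` in the cell `(a, b)` -/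
def cellPos (a b : ℤ) (t : ℕ) : ℤ × ℤ :=
  (24 * b + (tab.getD t (0, 0)).1, 24 * a + (tab.getD t (0, 0)).2)

/-- linear form -/
def lf (c p : ℤ × ℤ) : ℤ := c.1 * p.1 + c.2 * p.2

/-- the separation test -/
def tst (c A B C D : ℤ × ℤ) : Bool :=
  (decide (lf c A < lf c C) && decide (lf c A < lf c D) && decide (lf c B < lf c C) &&
    decide (lf c B < lf c D)) ||
  ((decide (A = C) || decide (A = D)) && decide (lf c A ≤ lf c C) && decide (lf c A ≤ lf c D) &&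
    decide (lf c B < lf c A)) ||
  ((decide (B = C) || decide (B = D)) && decide (lf c B ≤ lf c C) && decide (lf c B ≤ lf c D) &&
    decide (lf c A < lf c B))

/-- some line separates the segments -/
def sep (A B C D : ℤ × ℤ) : Bool :=
  tst (1, 0) A B C D || tst (-1, 0) A B C D || tst (0, 1) A B C D || tst (0, -1) A B C D ||
  tst (B.2 - A.2, A.1 - B.1) A B C D || tst (A.2 - B.2, B.1 - A.1) A B C D ||
  tst (D.2 - C.2, C.1 - D.1) A B C D || tst (C.2 - D.2, D.1 - C.1) A B C D ||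
  tst (B.1 - A.1, B.2 - A.2) A B C D || tst (A.1 - B.1, A.2 - B.2) A B C D

/-- the kinds which do not occur in column `0` -/
def need (t : ℕ) : Bool := decide (t = 0) || decide (t = 1) || (decide (8 ≤ t) && decide (t ≤ 14))

/-- this kind of edges does not occur at column `0` -/
def needP (p : ℕ × ℕ × ℕ × ℕ × ℕ) : Bool :=
  need p.1 || (decide (p.2.2.2.1 = 0) && need p.2.1)

/-- the check for two kinds of edges, at the cells `(a, b)` and `(c, d)` -/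
def chk (p : ℕ × ℕ × ℕ × ℕ × ℕ) (a b : ℕ) (q : ℕ × ℕ × ℕ × ℕ × ℕ) (c d : ℕ) : Bool :=
  (decide (p = q) && decide (a = c) && decide (b = d)) ||
  (decide (1 ≤ a) && decide (1 ≤ c)) || (decide (1 ≤ b) && decide (1 ≤ d)) ||
  (decide (p.2.2.2.2 = 3) && (decide (1 ≤ b) || (decide (d = 0) && needP q))) ||
  (decide (q.2.2.2.2 = 3) && (decide (1 ≤ d) || (decide (b = 0) && needP p))) ||
  sep (cellPos a b p.1) (cellPos (a + p.2.2.1 : ℕ) (b + p.2.2.2.1 : ℕ) p.2.1)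
    (cellPos c d q.1) (cellPos (c + q.2.2.1 : ℕ) (d + q.2.2.2.1 : ℕ) q.2.1)

theorem chk_all : ∀ p ∈ pats, ∀ q ∈ pats, ∀ a ∈ [0, 1], ∀ b ∈ [0, 1], ∀ c ∈ [0, 1], ∀ d ∈ [0, 1],
    chk p a b q c d = true := by decide +kernel

/-- the check for a kind of edges and a kind of vertices -/
def chkV (p : ℕ × ℕ × ℕ × ℕ × ℕ) (a b : ℕ) (t : ℕ) (c d : ℕ) : Bool :=
  sep (cellPos a b p.1) (cellPos (a + p.2.2.1 : ℕ) (b + p.2.2.2.1 : ℕ) p.2.1)
    (cellPos c d t) (cellPos c d t)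

theorem chkV_all : ∀ p ∈ pats, ∀ t ∈ List.range 19, ∀ a ∈ [0, 1], ∀ b ∈ [0, 1], ∀ c ∈ [0, 1],
    ∀ d ∈ [0, 1], chkV p a b t c d = true := by decide +kernel

/-- all edges are in their cells -/
theorem box_all : ∀ p ∈ pats, p.2.2.1 ≤ 1 ∧ p.2.2.2.1 ≤ 1 ∧
    (0 ≤ (tab.getD p.1 (0, 0)).1 ∧ (tab.getD p.1 (0, 0)).1 ≤ 24) ∧
    (0 ≤ (tab.getD p.1 (0, 0)).2 ∧ (tab.getD p.1 (0, 0)).2 ≤ 24) ∧
    (0 ≤ 24 * (p.2.2.2.1 : ℤ) + (tab.getD p.2.1 (0, 0)).1 ∧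
      24 * (p.2.2.2.1 : ℤ) + (tab.getD p.2.1 (0, 0)).1 ≤ 24) ∧
    (0 ≤ 24 * (p.2.2.1 : ℤ) + (tab.getD p.2.1 (0, 0)).2 ∧
      24 * (p.2.2.1 : ℤ) + (tab.getD p.2.1 (0, 0)).2 ≤ 24) := by decide +kernel

theorem tab_inj : ∀ s ∈ List.range 19, ∀ t ∈ List.range 19,
    tab.getD s (0, 0) = tab.getD t (0, 0) → s = t := by decide +kernel

theorem tab_lt : ∀ s ∈ List.range 19, (0 ≤ (tab.getD s (0, 0)).1 ∧ (tab.getD s (0, 0)).1 < 24) ∧
    (0 ≤ (tab.getD s (0, 0)).2 ∧ (tab.getD s (0, 0)).2 < 24) := by decide +kernel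

end Pool.Agent.Z85.LMD
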