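import Pool.Agent.Z85.LMD.Plane

/-!
# The plane drawing of the grid graph
-/

set_option autoImplicit false

namespace Pool.Agent.Z85.LMD

/-- an integer point as a point of the plane -/
def rp (p : ℤ × ℤ) : ℝ × ℝ := ((p.1 : ℝ), (p.2 : ℝ))

theorem rp_inj {p q : ℤ × ℤ} (h : rp p = rp q) : p = q := by
  unfold rp at h
  simp only [Prod.mk.injEq, Int.cast_inj] at h
  exact Prod.ext h.1 h.2

/-- the linear form on the plane -/
def lfR (c : ℤ × ℤ) (x : ℝ × ℝ) : ℝ := c.1 * x.1 + c.2 * x.2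

theorem lfR_rp (c p : ℤ × ℤ) : lfR c (rp p) = (lf c p : ℤ) := by
  unfold lfR rp lf
  push_cast
  ring

theorem lfR_comb (c : ℤ × ℤ) (a b : ℝ) (x y : ℝ × ℝ) :
    lfR c (a • x + b • y) = a * lfR c x + b * lfR c y := by
  unfold lfR
  simp only [Prod.fst_add, Prod.smul_fst, Prod.snd_add, Prod.smul_snd, smul_eq_mul]
  ring

theorem seg_ge {c C D : ℤ × ℤ} {m : ℤ} (h1 : m ≤ lf c C) (h2 : m ≤ lf c D) {x : ℝ × ℝ}
    (hx : x ∈ segment ℝ (rp C) (rp D)) : (m : ℝ) ≤ lfR c x := by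
  obtain ⟨a, b, ha, hb, hab, rfl⟩ := hx
  rw [lfR_comb, lfR_rp, lfR_rp]
  have h1' : (m : ℝ) ≤ (lf c C : ℤ) := by exact_mod_cast h1
  have h2' : (m : ℝ) ≤ (lf c D : ℤ) := by exact_mod_cast h2
  have h3 := mul_le_mul_of_nonneg_left h1' ha
  have h4 := mul_le_mul_of_nonneg_left h2' hb
  have h5 : (m : ℝ) = a * m + b * m := by rw [← add_mul, hab, one_mul]
  linarith

theorem seg_lt {c A B : ℤ × ℤ} {m : ℤ} (h1 : lf c A < m) (h2 : lf c B < m) {x : ℝ × ℝ}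
    (hx : x ∈ segment ℝ (rp A) (rp B)) : lfR c x < m := by
  obtain ⟨a, b, ha, hb, hab, rfl⟩ := hx
  rw [lfR_comb, lfR_rp, lfR_rp]
  have h1' : ((lf c A : ℤ) : ℝ) ≤ ((m - 1 : ℤ) : ℝ) := by exact_mod_cast Int.le_sub_one_of_lt h1
  have h2' : ((lf c B : ℤ) : ℝ) ≤ ((m - 1 : ℤ) : ℝ) := by exact_mod_cast Int.le_sub_one_of_lt h2
  push_cast at h1' h2'
  have h3 := mul_le_mul_of_nonneg_left h1' ha
  have h4 := mul_le_mul_of_nonneg_left h2' hb
  have h5 : ((m : ℝ) - 1) = a * ((m : ℝ) - 1) + b * ((m : ℝ) - 1) := by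
    rw [← add_mul, hab, one_mul]
  linarith

theorem seg_touch {c A B : ℤ × ℤ} (h2 : lf c B < lf c A) {x : ℝ × ℝ}
    (hx : x ∈ segment ℝ (rp A) (rp B)) (h : ((lf c A : ℤ) : ℝ) ≤ lfR c x) : x = rp A := by
  obtain ⟨a, b, ha, hb, hab, rfl⟩ := hx
  rw [lfR_comb, lfR_rp, lfR_rp] at h
  have h2' : ((lf c B : ℤ) : ℝ) < (lf c A : ℤ) := by exact_mod_cast h2
  have hb0 : b = 0 := by
    by_contra hb0
    have hbp : 0 < b := lt_of_le_of_ne hb (Ne.symm hb0)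
    have h3 := mul_lt_mul_of_pos_left h2' hbp
    have h5 : ((lf c A : ℤ) : ℝ) = a * (lf c A : ℤ) + b * (lf c A : ℤ) := by
      rw [← add_mul, hab, one_mul]
    linarith
  have ha1 : a = 1 := by linarith
  rw [hb0, ha1, one_smul, zero_smul, add_zero]

theorem tst_sound {c A B C D : ℤ × ℤ} (h : tst c A B C D = true) {x : ℝ × ℝ}
    (h1 : x ∈ segment ℝ (rp A) (rp B)) (h2 : x ∈ segment ℝ (rp C) (rp D)) :
    (x = rp A ∧ (A = C ∨ A = D)) ∨ (x = rp B ∧ (B = C ∨ B = D)) := by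
  unfold tst at h
  simp only [Bool.or_eq_true, Bool.and_eq_true, decide_eq_true_eq] at h
  rcases h with (⟨⟨⟨h3, h4⟩, h5⟩, h6⟩ | ⟨⟨⟨h3, h4⟩, h5⟩, h6⟩) | ⟨⟨⟨h3, h4⟩, h5⟩, h6⟩
  · exfalso
    have h7 := seg_ge (c := c) (m := min (lf c C) (lf c D)) (min_le_left _ _) (min_le_right _ _) h2
    have h8 := seg_lt (c := c) (m := min (lf c C) (lf c D)) (lt_min h3 h4) (lt_min h5 h6) h1
    linarith
  · left
    exact ⟨seg_touch h6 h1 (seg_ge h4 h5 h2), h3⟩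
  · right
    rw [segment_symm] at h1
    exact ⟨seg_touch h6 h1 (seg_ge h4 h5 h2), h3⟩

theorem sep_sound {A B C D : ℤ × ℤ} (h : sep A B C D = true) {x : ℝ × ℝ}
    (h1 : x ∈ segment ℝ (rp A) (rp B)) (h2 : x ∈ segment ℝ (rp C) (rp D)) :
    (x = rp A ∧ (A = C ∨ A = D)) ∨ (x = rp B ∧ (B = C ∨ B = D)) := by
  unfold sep at h
  simp only [Bool.or_eq_true] at h
  rcases h with ((((((((h | h) | h) | h) | h) | h) | h) | h) | h) | h <;>
  exact tst_sound h h1 h2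

theorem lf_add (c p s : ℤ × ℤ) : lf c (p + s) = lf c p + lf c s := by
  unfold lf
  simp only [Prod.fst_add, Prod.snd_add]
  ring

theorem tst_shift (c A B C D s : ℤ × ℤ) :
    tst c (A + s) (B + s) (C + s) (D + s) = tst c A B C D := by
  unfold tst
  simp only [lf_add, add_lt_add_iff_right, add_le_add_iff_right, add_left_inj]

theorem sep_shift (A B C D s : ℤ × ℤ) :
    sep (A + s) (B + s) (C + s) (D + s) = sep A B C D := by
  unfold sep
  simp only [tst_shift, Prod.fst_add, Prod.snd_add, add_sub_add_right_eq_sub]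

theorem cellPos_shift (a b i j : ℤ) (t : ℕ) :
    cellPos (i + a) (j + b) t = cellPos a b t + (24 * j, 24 * i) := by
  unfold cellPos
  simp only [Prod.mk_add_mk, Prod.mk.injEq]
  constructor <;> ring

variable {R C : ℕ} {tap : ℕ → ℕ → Prop}

/-- the integer position of a vertex -/
def posZ (v : Lb) : ℤ × ℤ := cellPos v.1 v.2.1 v.2.2

/-- the position of a vertex -/
def posL (v : Lb) : ℝ × ℝ := rp (posZ v)

theorem ok_lt {v : Lb} (h : ok R C v) : v.2.2 < 19 := by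
  unfold ok at h
  omega

theorem posZ_inj {v w : Lb} (hv : ok R C v) (hw : ok R C w) (h : posZ v = posZ w) : v = w := by
  obtain ⟨i, j, t⟩ := v
  obtain ⟨i', j', t'⟩ := w
  have h1 := tab_lt t (List.mem_range.2 (ok_lt hv))
  have h2 := tab_lt t' (List.mem_range.2 (ok_lt hw))
  have h3 := tab_inj t (List.mem_range.2 (ok_lt hv)) t' (List.mem_range.2 (ok_lt hw))
  unfold posZ cellPos at h
  simp only [Prod.mk.injEq] at h
  obtain ⟨h4, h5⟩ := h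
  have h6 : i = i' := by omega
  have h7 : j = j' := by omega
  have h8 : t = t' := h3 (Prod.ext (by omega) (by omega))
  rw [h6, h7, h8]

theorem need_ok {i j t : ℕ} (h : ok R C (i, j, t)) (h' : need t = true) : 1 ≤ j := by
  unfold ok at h
  unfold need at h'
  dsimp only at h
  simp only [Bool.or_eq_true, Bool.and_eq_true, decide_eq_true_eq] at h'
  omega

/-- the coordinates of the points of an edge -/
theorem box {p : ℕ × ℕ × ℕ × ℕ × ℕ} (hp : p ∈ pats) {i j : ℕ} {x : ℝ × ℝ}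
    (hx : x ∈ segment ℝ (rp (cellPos i j p.1))
      (rp (cellPos (i + p.2.2.1 : ℕ) (j + p.2.2.2.1 : ℕ) p.2.1))) :
    (24 * (j : ℝ) ≤ x.1 ∧ x.1 ≤ 24 * (j : ℝ) + 24) ∧
      (24 * (i : ℝ) ≤ x.2 ∧ x.2 ≤ 24 * (i : ℝ) + 24) := by
  obtain ⟨-, -, ⟨h1, h2⟩, ⟨h3, h4⟩, ⟨h5, h6⟩, h7, h8⟩ := box_all p hp
  have e1 := seg_ge (c := (1, 0)) (m := 24 * j) (by simp only [lf, cellPos]; omega)
    (by simp only [lf, cellPos]; push_cast; omega) hx
  have e2 := seg_ge (c := (-1, 0)) (m := -(24 * j + 24)) (by simp only [lf, cellPos]; omega)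
    (by simp only [lf, cellPos]; push_cast; omega) hx
  have e3 := seg_ge (c := (0, 1)) (m := 24 * i) (by simp only [lf, cellPos]; omega)
    (by simp only [lf, cellPos]; push_cast; omega) hx
  have e4 := seg_ge (c := (0, -1)) (m := -(24 * i + 24)) (by simp only [lf, cellPos]; omega)
    (by simp only [lf, cellPos]; push_cast; omega) hx
  unfold lfR at e1 e2 e3 e4
  push_cast at e1 e2 e3 e4
  refine ⟨⟨?_, ?_⟩, ?_, ?_⟩ <;> linarith

theorem near {i j i' j' : ℕ} {x : ℝ × ℝ}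
    (h : (24 * (j : ℝ) ≤ x.1 ∧ x.1 ≤ 24 * (j : ℝ) + 24) ∧
      (24 * (i : ℝ) ≤ x.2 ∧ x.2 ≤ 24 * (i : ℝ) + 24))
    (h' : (24 * (j' : ℝ) ≤ x.1 ∧ x.1 ≤ 24 * (j' : ℝ) + 24) ∧
      (24 * (i' : ℝ) ≤ x.2 ∧ x.2 ≤ 24 * (i' : ℝ) + 24)) :
    i ≤ i' + 1 ∧ i' ≤ i + 1 ∧ j ≤ j' + 1 ∧ j' ≤ j + 1 := by
  obtain ⟨⟨h1, h2⟩, h3, h4⟩ := h
  obtain ⟨⟨k1, k2⟩, k3, k4⟩ := h'
  refine ⟨?_, ?_, ?_, ?_⟩
  · have : (i : ℝ) ≤ i' + 1 := by linarith
    exact_mod_cast this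
  · have : (i' : ℝ) ≤ i + 1 := by linarith
    exact_mod_cast this
  · have : (j : ℝ) ≤ j' + 1 := by linarith
    exact_mod_cast this
  · have : (j' : ℝ) ≤ j + 1 := by linarith
    exact_mod_cast this

theorem mem01 {a : ℕ} (h : a ≤ 1) : a ∈ [0, 1] := by
  simp
  omega

/-- two edges meet at most in a common end -/
theorem edge_meet {v w v' w' : Lb} (hv : ok R C v) (hw : ok R C w) (hv' : ok R C v')
    (hw' : ok R C w') (h : E0 tap v w) (h' : E0 tap v' w') {x : ℝ × ℝ}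
    (hx : x ∈ segment ℝ (posL v) (posL w)) (hx' : x ∈ segment ℝ (posL v') (posL w')) :
    (v = v' ∧ w = w') ∨ ∃ z, x = posL z ∧ (z = v ∨ z = w) ∧ (z = v' ∨ z = w') := by
  have hfin : ∀ {A B C' D : Lb}, ok R C A → ok R C B → ok R C C' → ok R C D →
      (x = rp (posZ A) ∧ (posZ A = posZ C' ∨ posZ A = posZ D)) ∨
        (x = rp (posZ B) ∧ (posZ B = posZ C' ∨ posZ B = posZ D)) →
      ∃ z, x = posL z ∧ (z = A ∨ z = B) ∧ (z = C' ∨ z = D) := by
    rintro A B C' D hA hB hC hD (⟨h1, h2⟩ | ⟨h1, h2⟩)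
    · refine ⟨A, h1, Or.inl rfl, ?_⟩
      rcases h2 with h2 | h2
      · exact Or.inl (posZ_inj hA hC h2)
      · exact Or.inr (posZ_inj hA hD h2)
    · refine ⟨B, h1, Or.inr rfl, ?_⟩
      rcases h2 with h2 | h2
      · exact Or.inl (posZ_inj hB hC h2)
      · exact Or.inr (posZ_inj hB hD h2)
  obtain ⟨i, j, t⟩ := v
  obtain ⟨k, l, s⟩ := w
  obtain ⟨i', j', t'⟩ := v'
  obtain ⟨k', l', s'⟩ := w'
  obtain ⟨p, hp, h1, h2, h3, h4, hc⟩ := h
  obtain ⟨q, hq, h1', h2', h3', h4', hc'⟩ := h'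
  dsimp only at h1 h2 h3 h4 h1' h2' h3' h4'
  subst h1 h2 h3 h4 h1' h2' h3' h4'
  have hn : i ≤ i' + 1 ∧ i' ≤ i + 1 ∧ j ≤ j' + 1 ∧ j' ≤ j + 1 := near (box hp hx) (box hq hx')
  have hi : ∃ i0 a c, i = i0 + a ∧ i' = i0 + c ∧ a ≤ 1 ∧ c ≤ 1 ∧ (a = 0 ∨ c = 0) :=
    ⟨min i i', i - min i i', i' - min i i', by omega, by omega, by omega, by omega, by omega⟩
  have hj : ∃ j0 b d, j = j0 + b ∧ j' = j0 + d ∧ b ≤ 1 ∧ d ≤ 1 ∧ (b = 0 ∨ d = 0) :=
    ⟨min j j', j - min j j', j' - min j j', by omega, by omega, by omega, by omega, by omega⟩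
  obtain ⟨i0, a, c, rfl, rfl, ha, hc1, hac⟩ := hi
  obtain ⟨j0, b, d, rfl, rfl, hb, hd, hbd⟩ := hj
  have hchk := chk_all p hp q hq a (mem01 ha) b (mem01 hb) c (mem01 hc1) d (mem01 hd)
  unfold chk at hchk
  simp only [Bool.or_eq_true, Bool.and_eq_true, decide_eq_true_eq] at hchk
  have hspec : ∀ {p q : ℕ × ℕ × ℕ × ℕ × ℕ} {i0 a b c d : ℕ}, ok R C (i0 + c, j0 + d, q.1) →
      ok R C (i0 + c + q.2.2.1, j0 + d + q.2.2.2.1, q.2.1) →
      cnd tap p.2.2.2.2 (i0 + a, j0 + b, p.1) → p.2.2.2.2 = 3 →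
      (1 ≤ b ∨ (d = 0 ∧ needP q = true)) → False := by
    intro p q i0 a b c d hv' hw' hc h3 h4
    rw [h3] at hc
    unfold cnd at hc
    dsimp only at hc
    rcases h4 with h4 | ⟨h4, h5⟩
    · omega
    · unfold needP at h5
      simp only [Bool.or_eq_true, Bool.and_eq_true, decide_eq_true_eq] at h5
      rcases h5 with h5 | ⟨h5, h6⟩
      · have := need_ok hv' h5
        omega
      · have := need_ok hw' h6
        omega
  rcases hchk with ((((h3 | h3) | h3) | h3) | h3) | h3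
  · obtain ⟨⟨rfl, rfl⟩, rfl⟩ := h3
    exact Or.inl ⟨rfl, rfl⟩
  · omega
  · omega
  · exact (hspec hv' hw' hc h3.1 h3.2).elim
  · exact (hspec hv hw hc' h3.1 h3.2).elim
  · right
    refine hfin hv hw hv' hw' (sep_sound ?_ hx hx')
    refine Eq.trans ?_ ((sep_shift _ _ _ _ (24 * (j0 : ℤ), 24 * (i0 : ℤ))).trans h3)
    congr 1
    · rw [← cellPos_shift]
      simp [posZ]
    · rw [← cellPos_shift]
      simp [posZ, add_assoc]
    · rw [← cellPos_shift]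
      simp [posZ]
    · rw [← cellPos_shift]
      simp [posZ, add_assoc]

/-- no vertex lies on an edge of which it is not an end -/
theorem vert_edge {v w z : Lb} (hv : ok R C v) (hw : ok R C w) (hz : ok R C z)
    (h : E0 tap v w) (hx : posL z ∈ segment ℝ (posL v) (posL w)) : z = v ∨ z = w := by
  have hfin : ∀ {A B : Lb}, ok R C A → ok R C B →
      (posL z = rp (posZ A) ∧ (posZ A = posZ z ∨ posZ A = posZ z)) ∨
        (posL z = rp (posZ B) ∧ (posZ B = posZ z ∨ posZ B = posZ z)) →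
      z = A ∨ z = B := by
    rintro A B hA hB (⟨h1, -⟩ | ⟨h1, -⟩)
    · exact Or.inl (posZ_inj hz hA (rp_inj h1))
    · exact Or.inr (posZ_inj hz hB (rp_inj h1))
  have hx' : posL z ∈ segment ℝ (posL z) (posL z) := left_mem_segment _ _ _
  obtain ⟨i, j, t⟩ := v
  obtain ⟨k, l, s⟩ := w
  obtain ⟨i', j', t'⟩ := z
  obtain ⟨p, hp, h1, h2, h3, h4, hc⟩ := h
  dsimp only at h1 h2 h3 h4
  subst h1 h2 h3 h4
  have ht := ok_lt hz
  dsimp only at ht
  have hbz : (24 * (j' : ℝ) ≤ (posL (i', j', t')).1 ∧ (posL (i', j', t')).1 ≤ 24 * (j' : ℝ) + 24) ∧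
      (24 * (i' : ℝ) ≤ (posL (i', j', t')).2 ∧ (posL (i', j', t')).2 ≤ 24 * (i' : ℝ) + 24) := by
    obtain ⟨⟨h1, h2⟩, h3, h4⟩ := tab_lt t' (List.mem_range.2 ht)
    unfold posL rp posZ cellPos
    dsimp only
    generalize (tab.getD t' (0, 0)).1 = X at h1 h2 ⊢
    generalize (tab.getD t' (0, 0)).2 = Y at h3 h4 ⊢
    have h1' : (0 : ℝ) ≤ X := by exact_mod_cast h1
    have h2' : (X : ℝ) ≤ 24 := by exact_mod_cast h2.le
    have h3' : (0 : ℝ) ≤ Y := by exact_mod_cast h3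
    have h4' : (Y : ℝ) ≤ 24 := by exact_mod_cast h4.le
    push_cast
    refine ⟨⟨?_, ?_⟩, ?_, ?_⟩ <;> linarith
  have hn : i ≤ i' + 1 ∧ i' ≤ i + 1 ∧ j ≤ j' + 1 ∧ j' ≤ j + 1 := near (box hp hx) hbz
  have hi : ∃ i0 a c, i = i0 + a ∧ i' = i0 + c ∧ a ≤ 1 ∧ c ≤ 1 ∧ (a = 0 ∨ c = 0) :=
    ⟨min i i', i - min i i', i' - min i i', by omega, by omega, by omega, by omega, by omega⟩
  have hj : ∃ j0 b d, j = j0 + b ∧ j' = j0 + d ∧ b ≤ 1 ∧ d ≤ 1 ∧ (b = 0 ∨ d = 0) :=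
    ⟨min j j', j - min j j', j' - min j j', by omega, by omega, by omega, by omega, by omega⟩
  obtain ⟨i0, a, c, rfl, rfl, ha, hc1, hac⟩ := hi
  obtain ⟨j0, b, d, rfl, rfl, hb, hd, hbd⟩ := hj
  have h3 := chkV_all p hp t' (List.mem_range.2 ht) a (mem01 ha) b (mem01 hb) c (mem01 hc1) d
    (mem01 hd)
  unfold chkV at h3
  refine hfin hv hw (sep_sound ?_ hx hx')
  refine Eq.trans ?_ ((sep_shift _ _ _ _ (24 * (j0 : ℤ), 24 * (i0 : ℤ))).trans h3)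
  congr 1
  · rw [← cellPos_shift]
    simp [posZ]
  · rw [← cellPos_shift]
    simp [posZ, add_assoc]
  · rw [← cellPos_shift]
    simp [posZ]
  · rw [← cellPos_shift]
    simp [posZ]

end Pool.Agent.Z85.LMD
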