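import Pool.Agent.Z85.LMD.Transfer
import Pool.Agent.H671R2.PolyAuto
import Pool.Agent.H673R2.HardOn
import Pool.Agent.NPC.Sat2

/-!
# The reduction from 3SAT
-/

set_option autoImplicit false

namespace Pool.Agent.Z85.LMD

open Pool.Agent.NPC Pool.Agent.NPC.R671 Pool.Agent.H673R2

/-- formulas -/
abbrev F3 : Type := List (Lit ℕ × Lit ℕ × Lit ℕ)

/-- the row of a literal -/
def row (l : Lit ℕ) : ℕ := if l.1 then 2 * l.2 + 1 else 2 * l.2 + 2

/-- the literal of row `i` is in clause `j` -/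
def tapB (φ : F3) (i j : ℕ) : Bool :=
  (φ[j]?).any (fun c => decide (row c.1 = i) || decide (row c.2.1 = i) || decide (row c.2.2 = i))

/-- the ranges of the indices of the kinds of vertices -/
def otab : List (ℕ × ℕ × ℕ × ℕ) :=
  [(1, 0, 1, 0), (1, 0, 1, 0), (1, 0, 0, 1), (1, 0, 0, 1), (1, 0, 0, 1), (1, 0, 0, 1),
    (1, 0, 0, 1), (1, 0, 0, 1), (1, 0, 1, 0), (1, 0, 1, 0), (1, 1, 1, 0), (1, 1, 1, 0),
    (1, 1, 1, 0), (1, 1, 1, 0), (0, 1, 1, 0), (1, 0, 0, 1), (0, 0, 0, 0), (0, 0, 0, 0),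
    (0, 0, 0, 0)]

/-- the existence of a vertex -/
def okB (R C : ℕ) (v : Lb) : Bool :=
  decide (v.2.2 < 19) && decide ((otab.getD v.2.2 (0, 0, 0, 0)).1 ≤ v.1) &&
    decide (v.1 + (otab.getD v.2.2 (0, 0, 0, 0)).2.1 ≤ R) &&
    decide ((otab.getD v.2.2 (0, 0, 0, 0)).2.2.1 ≤ v.2.1) &&
    decide (v.2.1 + (otab.getD v.2.2 (0, 0, 0, 0)).2.2.2 ≤ C)

theorem okB_iff (R C : ℕ) (v : Lb) : okB R C v = true ↔ ok R C v := by
  obtain ⟨i, j, t⟩ := v
  unfold okB ok
  simp only [Bool.and_eq_true, decide_eq_true_eq]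
  rcases Nat.lt_or_ge t 19 with h | h
  · interval_cases t <;> simp [otab] <;> omega
  · omega

/-- the condition of a kind of edges -/
def cndB (φ : F3) (k : ℕ) (v : Lb) : Bool :=
  decide (k = 0) || (decide (k = 1) && tapB φ v.1 v.2.1) ||
    decide (k = 2 ∧ (1 ≤ v.2.1 ∨ v.1 % 2 = 1)) || decide (k = 3 ∧ v.2.1 = 0 ∧ v.1 % 2 = 1)

/-- the edges, oriented -/
def e0B (φ : F3) (v w : Lb) : Bool :=
  pats.any (fun p => decide (v.2.2 = p.1) && decide (w.2.2 = p.2.1) &&
    decide (w.1 = v.1 + p.2.2.1) && decide (w.2.1 = v.2.1 + p.2.2.2.1) && cndB φ p.2.2.2.2 v)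

theorem e0B_iff (φ : F3) (v w : Lb) : e0B φ v w = true ↔ E0 (fun i j => tapB φ i j = true) v w := by
  unfold e0B E0 cndB cnd
  rw [List.any_eq_true]
  simp only [Bool.and_eq_true, Bool.or_eq_true, decide_eq_true_eq, and_assoc, or_assoc]

/-- adjacency -/
def adB (φ : F3) (v w : Lb) : Bool :=
  okB (6 * φ.length) φ.length v && okB (6 * φ.length) φ.length w && (e0B φ v w || e0B φ w v)

/-- the graph of labels -/
def gr (φ : F3) : SimpleGraph Lb := GG (6 * φ.length) φ.length (fun i j => tapB φ i j = true)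

theorem adB_iff (φ : F3) (v w : Lb) : adB φ v w = true ↔ (gr φ).Adj v w := by
  unfold adB gr
  rw [adj_iff, Bool.and_eq_true, Bool.and_eq_true, Bool.or_eq_true, okB_iff, okB_iff, e0B_iff,
    e0B_iff, and_assoc]

/-- the vertices -/
def vs (φ : F3) : List Lb := vts (6 * φ.length) φ.length (okB (6 * φ.length) φ.length)

/-- the graph of the reduction -/
def redG (φ : F3) : SimpleGraph (Fin (vs φ).length) := (gr φ).comap (fun i => (vs φ)[i])

theorem vs_inj (φ : F3) : Function.Injective (fun i : Fin (vs φ).length => (vs φ)[i]) := by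
  intro i j h
  exact Fin.ext ((List.Nodup.getElem_inj_iff vts_nodup).1 h)

theorem mem_vs {φ : F3} {v : Lb} : v ∈ vs φ ↔ ok (6 * φ.length) φ.length v :=
  mem_vts (okB_iff _ _)

theorem vs_ok (φ : F3) (i : Fin (vs φ).length) : ok (6 * φ.length) φ.length (vs φ)[i] :=
  mem_vs.1 (List.getElem_mem _)

theorem exists_vs {φ : F3} {v : Lb} (h : ok (6 * φ.length) φ.length v) :
    ∃ i : Fin (vs φ).length, (vs φ)[i] = v := by
  obtain ⟨i, hi, h1⟩ := List.getElem_of_mem (mem_vs.2 h)
  exact ⟨⟨i, hi⟩, h1⟩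

theorem redG_planar (φ : F3) : IsPlanar (redG φ) := planar_comap (vs_inj φ) (vs_ok φ)

theorem redG_iff {φ : F3} (hne : φ ≠ []) (hb : Bounded3 φ) :
    SAT3 φ ↔ localDim (redG φ) ≤ KK (6 * φ.length) φ.length := by
  have hm : 1 ≤ φ.length := List.length_pos_iff.2 hne
  rw [localDim_le_iff, redG, localGen_transfer (G := gr φ) (vs_inj φ)
    (fun i w h => exists_vs h.2.1) (fun v w h => exists_vs h.1)]
  unfold gr
  rw [grid_iff (by omega) hm]
  constructor
  · rintro ⟨τ, hτ⟩
    refine ⟨fun i => if i % 2 = 1 then τ (i / 2) = true else τ (i / 2 - 1) = false, ?_, ?_⟩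
    · rintro k - ⟨h1, h2⟩
      rw [if_pos (by omega), show (2 * k + 1) / 2 = k by omega] at h1
      rw [if_neg (by omega), show (2 * k + 2) / 2 - 1 = k by omega, h1] at h2
      exact absurd h2 (by simp)
    · intro j hj
      have key : ∀ l : Lit ℕ, l.2 < 3 * φ.length → τ l.2 = l.1 →
          1 ≤ row l ∧ row l ≤ 6 * φ.length ∧
          (if row l % 2 = 1 then τ (row l / 2) = true else τ (row l / 2 - 1) = false) := by
        rintro ⟨b, v⟩ hv ht
        dsimp only at hv ht
        cases b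
        · have h1 : row (false, v) = 2 * v + 2 := by simp [row]
          rw [h1, if_neg (by omega), show (2 * v + 2) / 2 - 1 = v by omega]
          exact ⟨by omega, by omega, ht⟩
        · have h1 : row (true, v) = 2 * v + 1 := by simp [row]
          rw [h1, if_pos (by omega), show (2 * v + 1) / 2 = v by omega]
          exact ⟨by omega, by omega, ht⟩
      have hmem : φ[j] ∈ φ := List.getElem_mem hj
      obtain ⟨b1, b2, b3⟩ := hb _ hmem
      have htap : ∀ i, (row φ[j].1 = i ∨ row φ[j].2.1 = i ∨ row φ[j].2.2 = i) →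
          tapB φ i j = true := by
        intro i hi
        unfold tapB
        rw [List.getElem?_eq_getElem hj, Option.any_some]
        simpa [or_assoc] using hi
      rcases hτ _ hmem with h | h | h
      · obtain ⟨k1, k2, k3⟩ := key _ b1 h
        exact ⟨_, k1, k2, htap _ (Or.inl rfl), k3⟩
      · obtain ⟨k1, k2, k3⟩ := key _ b2 h
        exact ⟨_, k1, k2, htap _ (Or.inr (Or.inl rfl)), k3⟩
      · obtain ⟨k1, k2, k3⟩ := key _ b3 h
        exact ⟨_, k1, k2, htap _ (Or.inr (Or.inr rfl)), k3⟩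
  · classical
    rintro ⟨L, h1, h2⟩
    refine ⟨fun v => decide (L (2 * v + 1)), ?_⟩
    intro c hc
    obtain ⟨b1, b2, b3⟩ := hb _ hc
    obtain ⟨j, hj, rfl⟩ := List.getElem_of_mem hc
    obtain ⟨i, hi1, hi2, ht, hL⟩ := h2 j hj
    have key : ∀ l : Lit ℕ, l.2 < 3 * φ.length → row l = i → decide (L (2 * l.2 + 1)) = l.1 := by
      rintro ⟨b, v⟩ hv hr
      dsimp only at hv ⊢
      cases b
      · have h3 : row (false, v) = 2 * v + 2 := by simp [row]
        rw [h3] at hr
        rw [← hr] at hL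
        have h4 : ¬ L (2 * v + 1) := fun h4 => h1 v (by omega) ⟨h4, hL⟩
        simp [h4]
      · have h3 : row (true, v) = 2 * v + 1 := by simp [row]
        rw [h3] at hr
        rw [← hr] at hL
        simp [hL]
    unfold tapB at ht
    rw [List.getElem?_eq_getElem hj, Option.any_some] at ht
    simp only [Bool.or_eq_true, decide_eq_true_eq] at ht
    rcases ht with (ht | ht) | ht
    · exact Or.inl (key _ b1 ht)
    · exact Or.inr (Or.inl (key _ b2 ht))
    · exact Or.inr (Or.inr (key _ b3 ht))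

/-! ### Polynomial time -/

theorem redG_matrix (φ : F3) :
    adjMatrix (redG φ) = (vs φ).map (fun u => (vs φ).map (fun w => adB φ u w)) := by
  classical
  unfold adjMatrix
  apply List.ext_getElem
  · simp
  · intro i h1 h2
    simp only [List.getElem_ofFn, List.getElem_map]
    apply List.ext_getElem
    · simp
    · intro j h3 h4
      simp only [List.getElem_ofFn, List.getElem_map]
      rw [Bool.eq_iff_iff, decide_eq_true_eq, adB_iff]
      rfl

/-- the instance -/
noncomputable def inst (φ : F3) : List (List Bool) × ℕ :=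
  (adjMatrix (redG φ), KK (6 * φ.length) φ.length)

theorem poly_okB {α : Type} [TEnc α] {R C : α → ℕ} {v : α → Lb} (hR : Poly R) (hC : Poly C)
    (hv : Poly v) : Poly (fun a => okB (R a) (C a) (v a)) := by
  unfold okB
  fun_prop

theorem poly_row {α : Type} [TEnc α] {l : α → Lit ℕ} (hl : Poly l) :
    Poly (fun a => row (l a)) := by
  unfold row
  fun_prop

theorem poly_tapB {α : Type} [TEnc α] {φ : α → F3} {i j : α → ℕ} (hφ : Poly φ) (hi : Poly i)
    (hj : Poly j) : Poly (fun a => tapB (φ a) (i a) (j a)) := by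
  unfold tapB
  refine Poly.optAny_fp (h := fun (a : α) (c : Lit ℕ × Lit ℕ × Lit ℕ) =>
    decide (row c.1 = i a) || decide (row c.2.1 = i a) || decide (row c.2.2 = i a))
    (by fun_prop) ?_
  have h1 : Poly (fun p : α × (Lit ℕ × Lit ℕ × Lit ℕ) => row p.2.1) := poly_row (by fun_prop)
  have h2 : Poly (fun p : α × (Lit ℕ × Lit ℕ × Lit ℕ) => row p.2.2.1) := poly_row (by fun_prop)
  have h3 : Poly (fun p : α × (Lit ℕ × Lit ℕ × Lit ℕ) => row p.2.2.2) := poly_row (by fun_prop)
  fun_prop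

theorem poly_cndB {α : Type} [TEnc α] {φ : α → F3} {k : α → ℕ} {v : α → Lb} (hφ : Poly φ)
    (hk : Poly k) (hv : Poly v) : Poly (fun a => cndB (φ a) (k a) (v a)) := by
  unfold cndB
  have h1 : Poly (fun a => tapB (φ a) (v a).1 (v a).2.1) :=
    poly_tapB hφ (by fun_prop) (by fun_prop)
  fun_prop

theorem poly_e0B {α : Type} [TEnc α] {φ : α → F3} {v w : α → Lb} (hφ : Poly φ) (hv : Poly v)
    (hw : Poly w) : Poly (fun a => e0B (φ a) (v a) (w a)) := by
  unfold e0B
  refine NPC.Poly.any (p := fun (a : α) (p : ℕ × ℕ × ℕ × ℕ × ℕ) =>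
    decide ((v a).2.2 = p.1) && decide ((w a).2.2 = p.2.1) &&
    decide ((w a).1 = (v a).1 + p.2.2.1) && decide ((w a).2.1 = (v a).2.1 + p.2.2.2.1) &&
    cndB (φ a) p.2.2.2.2 (v a)) (NPC.Poly.const _) ?_
  have h1 : Poly (fun x : α × (ℕ × ℕ × ℕ × ℕ × ℕ) => cndB (φ x.1) x.2.2.2.2.2 (v x.1)) :=
    poly_cndB (by fun_prop) (by fun_prop) (by fun_prop)
  fun_prop

theorem poly_len6 {α : Type} [TEnc α] {φ : α → F3} (hφ : Poly φ) :
    Poly (fun a => 6 * (φ a).length) := by fun_prop

theorem poly_adB {α : Type} [TEnc α] {φ : α → F3} {v w : α → Lb} (hφ : Poly φ) (hv : Poly v)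
    (hw : Poly w) : Poly (fun a => adB (φ a) (v a) (w a)) := by
  unfold adB
  have h1 := poly_e0B hφ hv hw
  have h2 := poly_e0B hφ hw hv
  have h3 := poly_okB (poly_len6 hφ) (C := fun a => (φ a).length) (by fun_prop) hv
  have h4 := poly_okB (poly_len6 hφ) (C := fun a => (φ a).length) (by fun_prop) hw
  fun_prop

theorem poly_vs : Poly vs := by
  unfold vs vts
  have hn : UPoly (fun φ : F3 => φ.length) := UPoly.length Poly.id
  have h1 : Poly (fun φ : F3 => List.range (6 * φ.length + 1)) :=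
    (UPoly.add (UPoly.mul (UPoly.const 6) hn) (UPoly.const 1)).range
  have h2 : Poly (fun φ : F3 => List.range (φ.length + 1)) := (UPoly.add hn (UPoly.const 1)).range
  have h3 : Poly (fun x : F3 × Lb => okB (6 * x.1.length) x.1.length x.2) :=
    poly_okB (by fun_prop) (by fun_prop) (by fun_prop)
  exact NPC.Poly.filter (p := fun (φ : F3) (v : Lb) => okB (6 * φ.length) φ.length v)
    (poly_product h1 (poly_product h2 (NPC.Poly.const _))) h3

theorem poly_inst : Poly inst := by
  have h0 : Poly (fun φ : F3 => (vs φ).map (fun u => (vs φ).map (fun w => adB φ u w))) := by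
    have h1 : Poly (fun x : (F3 × Lb) × Lb => adB x.1.1 x.1.2 x.2) :=
      poly_adB (by fun_prop) (by fun_prop) (by fun_prop)
    have h2 : Poly (fun x : F3 × Lb => (vs x.1).map (fun w => adB x.1 x.2 w)) :=
      NPC.Poly.map (F := fun (x : F3 × Lb) (w : Lb) => adB x.1 x.2 w)
        (poly_vs.comp (Poly.fst Poly.id)) h1
    exact NPC.Poly.map (F := fun (φ : F3) (u : Lb) => (vs φ).map (fun w => adB φ u w)) poly_vs h2
  have h1 : Poly (fun φ : F3 => KK (6 * φ.length) φ.length) := by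
    unfold KK
    fun_prop
  refine (Poly.pair h0 h1).congr fun φ => ?_
  rw [inst, redG_matrix]

end Pool.Agent.Z85.LMD
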