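import Pool.Agent.Z85.LMD.Adj

/-!
# The critical edges and the landmarks which resolve them
-/

set_option autoImplicit false

namespace Pool.Agent.Z85.LMD

section

variable {V : Type} {G : SimpleGraph V}

theorem L1 {u v : V} {k : ℕ} (hk : 1 ≤ k) (h : G.Adj u v) : G.edist u v ≤ k :=
  (ed1 h).trans (by exact_mod_cast hk)

theorem L2 {u m v : V} {k : ℕ} (hk : 2 ≤ k) (h : G.Adj u m) (h' : G.Adj m v) :
    G.edist u v ≤ k := (ed2 h h').trans (by exact_mod_cast hk)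

theorem L3 {u m m' v : V} {k : ℕ} (hk : 3 ≤ k) (h : G.Adj u m) (h1 : G.Adj m m')
    (h' : G.Adj m' v) : G.edist u v ≤ k := (ed3 h h1 h').trans (by exact_mod_cast hk)

theorem L4 {u m m' m'' v : V} {k : ℕ} (hk : 4 ≤ k) (h : G.Adj u m) (h1 : G.Adj m m')
    (h2 : G.Adj m' m'') (h' : G.Adj m'' v) : G.edist u v ≤ k :=
  (ed4 h h1 h2 h').trans (by exact_mod_cast hk)

end

variable {R C : ℕ} {tap : ℕ → ℕ → Prop}

/-- the edges between the two pendant vertices of a hub -/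
theorem res_ab {i j : ℕ} (h : i ≤ R ∧ j ≤ C) {w : Lb}
    (hw : (GG R C tap).edist (i, j, 17) w ≠ (GG R C tap).edist (i, j, 18) w) :
    w = (i, j, 17) ∨ w = (i, j, 18) := by
  refine shield (S := fun v => v = (i, j, 17) ∨ v = (i, j, 18)) (σ := fun _ => 0) (Or.inl rfl)
    (Or.inr rfl) rfl rfl ?_ hw
  rintro a (rfl | rfl) b hb
  · rcases nb17 hb with rfl | rfl
    · exact Or.inr ⟨L1 (by simp) (A16_17 h), L1 (by simp) (A16_18 h)⟩
    · exact Or.inl ⟨Or.inr rfl, by simp⟩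
  · rcases nb18 hb with rfl | rfl
    · exact Or.inr ⟨L1 (by simp) (A16_17 h), L1 (by simp) (A16_18 h)⟩
    · exact Or.inl ⟨Or.inl rfl, by simp⟩

/-- the edges `x X` -/
theorem res_xX {i j : ℕ} (h : i + 1 ≤ R ∧ j < C) {w : Lb}
    (hw : (GG R C tap).edist (i + 1, j, 4) w ≠ (GG R C tap).edist (i + 1, j, 5) w) :
    w = (i + 1, j, 3) ∨ w = (i + 1, j, 4) ∨ w = (i + 1, j, 5) ∨ w = (i + 1, j, 6) := by
  refine shield (S := fun v => v = (i + 1, j, 3) ∨ v = (i + 1, j, 4) ∨ v = (i + 1, j, 5) ∨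
    v = (i + 1, j, 6)) (σ := fun v => if v.2.2 = 3 ∨ v.2.2 = 6 then 1 else 0) (Or.inr (Or.inl rfl))
    (Or.inr (Or.inr (Or.inl rfl))) rfl rfl ?_ hw
  have hd : (GG R C tap).Adj (i + 1, j, 16) (i + 1, j, 4) ∧
      (GG R C tap).Adj (i + 1, j, 16) (i + 1, j, 5) := ⟨A16_4 (by omega), A16_5 (by omega)⟩
  have hu : (GG R C tap).Adj (i, j, 16) (i + 1, j, 4) ∧
      (GG R C tap).Adj (i, j, 16) (i + 1, j, 5) := ⟨B16_4 (by omega), B16_5 (by omega)⟩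
  rintro a (rfl | rfl | rfl | rfl) b hb
  · rcases nb3 hb with rfl | rfl
    · by_cases hc : 1 ≤ j ∨ (i + 1) % 2 = 1
      · exact Or.inr ⟨L2 (by simp) (A16_2 (by omega)).symm hd.1,
          L2 (by simp) (A16_2 (by omega)).symm hd.2⟩
      · exact Or.inr ⟨L2 (by simp) (B16_2 (by omega)).symm hu.1,
          L2 (by simp) (B16_2 (by omega)).symm hu.2⟩
    · exact Or.inl ⟨by simp, by simp⟩
  · rcases nb4 hb with rfl | rfl | rfl | rfl
    · exact Or.inl ⟨by simp, by simp⟩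
    · exact Or.inl ⟨by simp, by simp⟩
    · exact Or.inr ⟨L1 (by simp) hd.1, L1 (by simp) hd.2⟩
    · exact Or.inr ⟨L1 (by simp) hu.1, L1 (by simp) hu.2⟩
  · rcases nb5 hb with rfl | rfl | rfl | rfl
    · exact Or.inl ⟨by simp, by simp⟩
    · exact Or.inl ⟨by simp, by simp⟩
    · exact Or.inr ⟨L1 (by simp) hd.1, L1 (by simp) hd.2⟩
    · exact Or.inr ⟨L1 (by simp) hu.1, L1 (by simp) hu.2⟩
  · rcases nb6 hb with rfl | rfl | ⟨rfl, -⟩
    · exact Or.inl ⟨by simp, by simp⟩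
    · exact Or.inr ⟨L2 (by simp) (B16_7 (by omega)).symm hu.1,
        L2 (by simp) (B16_7 (by omega)).symm hu.2⟩
    · exact Or.inr ⟨L2 (by simp) (A16_15 (by omega)).symm hd.1,
        L2 (by simp) (A16_15 (by omega)).symm hd.2⟩

/-- the edges `u U` -/
theorem res_uU {i j : ℕ} (h : 1 ≤ i ∧ i < R ∧ j + 1 ≤ C) {w : Lb}
    (hw : (GG R C tap).edist (i, j + 1, 11) w ≠ (GG R C tap).edist (i, j + 1, 12) w) :
    w = (i, j + 1, 10) ∨ w = (i, j + 1, 11) ∨ w = (i, j + 1, 12) ∨ w = (i, j + 1, 13) := by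
  refine shield (S := fun v => v = (i, j + 1, 10) ∨ v = (i, j + 1, 11) ∨ v = (i, j + 1, 12) ∨
    v = (i, j + 1, 13)) (σ := fun v => if v.2.2 = 10 ∨ v.2.2 = 13 then 1 else 0)
    (Or.inr (Or.inl rfl)) (Or.inr (Or.inr (Or.inl rfl))) rfl rfl ?_ hw
  have hd : (GG R C tap).Adj (i, j + 1, 16) (i, j + 1, 11) ∧
      (GG R C tap).Adj (i, j + 1, 16) (i, j + 1, 12) := ⟨A16_11 (by omega), A16_12 (by omega)⟩
  have hu : (GG R C tap).Adj (i, j, 16) (i, j + 1, 11) ∧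
      (GG R C tap).Adj (i, j, 16) (i, j + 1, 12) := ⟨C16_11 (by omega), C16_12 (by omega)⟩
  rintro a (rfl | rfl | rfl | rfl) b hb
  · rcases nb10 hb with rfl | rfl
    · exact Or.inr ⟨L2 (by simp) (A16_9 (by omega)).symm hd.1,
        L2 (by simp) (A16_9 (by omega)).symm hd.2⟩
    · exact Or.inl ⟨by simp, by simp⟩
  · rcases nb11 hb with rfl | rfl | rfl | rfl
    · exact Or.inl ⟨by simp, by simp⟩
    · exact Or.inl ⟨by simp, by simp⟩
    · exact Or.inr ⟨L1 (by simp) hd.1, L1 (by simp) hd.2⟩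
    · exact Or.inr ⟨L1 (by simp) hu.1, L1 (by simp) hu.2⟩
  · rcases nb12 hb with rfl | rfl | rfl | rfl
    · exact Or.inl ⟨by simp, by simp⟩
    · exact Or.inl ⟨by simp, by simp⟩
    · exact Or.inr ⟨L1 (by simp) hd.1, L1 (by simp) hd.2⟩
    · exact Or.inr ⟨L1 (by simp) hu.1, L1 (by simp) hu.2⟩
  · rcases nb13 hb with rfl | rfl
    · exact Or.inl ⟨by simp, by simp⟩
    · exact Or.inr ⟨L2 (by simp) (A16_14 (by omega)).symm hd.1,
        L2 (by simp) (A16_14 (by omega)).symm hd.2⟩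

/-- the edges `y Y` -/
theorem res_yY {i j : ℕ} (h : i + 1 ≤ R ∧ j + 1 < C) {w : Lb}
    (hw : (GG R C tap).edist (i + 1, j + 1, 1) w ≠ (GG R C tap).edist (i + 1, j + 1, 2) w) :
    w = (i + 1, j, 6) ∨ w = (i + 1, j, 7) ∨ w = (i + 1, j + 1, 0) ∨ w = (i + 1, j + 1, 1) ∨
      w = (i + 1, j + 1, 2) ∨ w = (i + 1, j + 1, 3) := by
  refine shield (S := fun v => v = (i + 1, j, 6) ∨ v = (i + 1, j, 7) ∨ v = (i + 1, j + 1, 0) ∨
    v = (i + 1, j + 1, 1) ∨ v = (i + 1, j + 1, 2) ∨ v = (i + 1, j + 1, 3))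
    (σ := fun v => if v.2.2 = 6 then 3 else if v.2.2 = 7 then 2 else
      if v.2.2 = 0 ∨ v.2.2 = 3 then 1 else 0)
    (by simp) (by simp) rfl rfl ?_ hw
  have hd : (GG R C tap).Adj (i + 1, j + 1, 16) (i + 1, j + 1, 1) ∧
      (GG R C tap).Adj (i + 1, j + 1, 16) (i + 1, j + 1, 2) :=
    ⟨A16_1 (by omega), A16_2 (by omega)⟩
  have hu : (GG R C tap).Adj (i, j + 1, 16) (i + 1, j + 1, 1) ∧
      (GG R C tap).Adj (i, j + 1, 16) (i + 1, j + 1, 2) := ⟨B16_1 (by omega), B16_2 (by omega)⟩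
  have hv1 : (GG R C tap).Adj (i, j, 16) (i, j + 1, 14) := C16_14 (by omega)
  have hv2 : (GG R C tap).Adj (i, j + 1, 14) (i, j + 1, 16) := (A16_14 (by omega)).symm
  have hz : (GG R C tap).Adj (i + 1, j + 1, 8) (i + 1, j + 1, 16) := (A16_8 (by omega)).symm
  rintro a (rfl | rfl | rfl | rfl | rfl | rfl) b hb
  · rcases nb6 hb with rfl | rfl | ⟨rfl, -⟩
    · exact Or.inr ⟨L4 (by simp) (B16_5 (by omega)).symm hv1 hv2 hu.1,
        L4 (by simp) (B16_5 (by omega)).symm hv1 hv2 hu.2⟩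
    · exact Or.inl ⟨by simp, by simp⟩
    · exact Or.inr ⟨L3 (by simp) (C15_8 (by omega)) hz hd.1, L3 (by simp) (C15_8 (by omega)) hz hd.2⟩
  · rcases nb7 hb with rfl | rfl | rfl
    · exact Or.inl ⟨by simp, by simp⟩
    · exact Or.inl ⟨by simp, by simp⟩
    · exact Or.inr ⟨L3 (by simp) hv1 hv2 hu.1, L3 (by simp) hv1 hv2 hu.2⟩
  · rcases nb0 hb with rfl | rfl | rfl | rfl
    · exact Or.inl ⟨by simp, by simp⟩
    · exact Or.inl ⟨by simp, by simp⟩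
    · exact Or.inr ⟨L2 (by simp) hz hd.1, L2 (by simp) hz hd.2⟩
    · exact Or.inr ⟨L2 (by simp) hv2 hu.1, L2 (by simp) hv2 hu.2⟩
  · rcases nb1 hb with rfl | rfl | rfl | rfl
    · exact Or.inl ⟨by simp, by simp⟩
    · exact Or.inl ⟨by simp, by simp⟩
    · exact Or.inr ⟨L1 (by simp) hd.1, L1 (by simp) hd.2⟩
    · exact Or.inr ⟨L1 (by simp) hu.1, L1 (by simp) hu.2⟩
  · rcases nb2 hb with rfl | rfl | rfl | rfl
    · exact Or.inl ⟨by simp, by simp⟩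
    · exact Or.inl ⟨by simp, by simp⟩
    · exact Or.inr ⟨L1 (by simp) hd.1, L1 (by simp) hd.2⟩
    · exact Or.inr ⟨L1 (by simp) hu.1, L1 (by simp) hu.2⟩
  · rcases nb3 hb with rfl | rfl
    · exact Or.inl ⟨by simp, by simp⟩
    · exact Or.inr ⟨L2 (by simp) (A16_4 (by omega)).symm hd.1,
        L2 (by simp) (A16_4 (by omega)).symm hd.2⟩

/-- the edges `z Z` -/
theorem res_zZ {i j : ℕ} (h : i + 1 ≤ R ∧ j + 1 ≤ C) {w : Lb}
    (hw : (GG R C tap).edist (i + 1, j + 1, 8) w ≠ (GG R C tap).edist (i + 1, j + 1, 9) w) :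
    w = (i, j + 1, 13) ∨ w = (i, j + 1, 14) ∨ w = (i + 1, j + 1, 0) ∨ w = (i + 1, j + 1, 8) ∨
      w = (i + 1, j + 1, 9) ∨ w = (i + 1, j + 1, 10) ∨ w = (i + 1, j, 7) ∨ w = (i + 1, j, 15) ∨
      (w = (i + 1, j, 6) ∧ tap (i + 1) j) := by
  refine shield (S := fun v => v = (i, j + 1, 13) ∨ v = (i, j + 1, 14) ∨ v = (i + 1, j + 1, 0) ∨
      v = (i + 1, j + 1, 8) ∨ v = (i + 1, j + 1, 9) ∨ v = (i + 1, j + 1, 10) ∨
      v = (i + 1, j, 7) ∨ v = (i + 1, j, 15) ∨ (v = (i + 1, j, 6) ∧ tap (i + 1) j))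
    (σ := fun v => if v.2.2 = 13 then 3 else if v.2.2 = 14 ∨ v.2.2 = 7 ∨ v.2.2 = 6 then 2 else
      if v.2.2 = 0 ∨ v.2.2 = 10 ∨ v.2.2 = 15 then 1 else 0)
    (by simp) (by simp) rfl rfl ?_ hw
  have hd : (GG R C tap).Adj (i + 1, j + 1, 16) (i + 1, j + 1, 8) ∧
      (GG R C tap).Adj (i + 1, j + 1, 16) (i + 1, j + 1, 9) :=
    ⟨A16_8 (by omega), A16_9 (by omega)⟩
  have hu : (GG R C tap).Adj (i + 1, j, 16) (i + 1, j + 1, 8) ∧
      (GG R C tap).Adj (i + 1, j, 16) (i + 1, j + 1, 9) := ⟨C16_8 (by omega), C16_9 (by omega)⟩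
  have hx1 : (GG R C tap).Adj (i, j, 16) (i + 1, j, 4) := B16_4 (by omega)
  have hx2 : (GG R C tap).Adj (i + 1, j, 4) (i + 1, j, 16) := (A16_4 (by omega)).symm
  have hy1 : (GG R C tap).Adj (i, j + 1, 16) (i + 1, j + 1, 1) := B16_1 (by omega)
  have hy2 : (GG R C tap).Adj (i + 1, j + 1, 1) (i + 1, j + 1, 16) := (A16_1 (by omega)).symm
  have hX : (GG R C tap).Adj (i + 1, j, 5) (i + 1, j, 16) := (A16_5 (by omega)).symm
  rintro a (rfl | rfl | rfl | rfl | rfl | rfl | rfl | rfl | ⟨rfl, ht⟩) b hb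
  · have hok := hb.1
    unfold ok at hok
    dsimp only at hok
    rcases nb13 hb with rfl | rfl
    · have h1 : (GG R C tap).Adj (i, j + 1, 12) (i, j, 16) := (C16_12 (by omega)).symm
      exact Or.inr ⟨L4 (by simp) h1 hx1 hx2 hu.1, L4 (by simp) h1 hx1 hx2 hu.2⟩
    · exact Or.inl ⟨by simp, by simp⟩
  · rcases nb14 hb with rfl | rfl | rfl | rfl
    · exact Or.inl ⟨by simp, by simp⟩
    · exact Or.inl ⟨by simp, by simp⟩
    · exact Or.inr ⟨L3 (by simp) hy1 hy2 hd.1, L3 (by simp) hy1 hy2 hd.2⟩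
    · exact Or.inr ⟨L3 (by simp) hx1 hx2 hu.1, L3 (by simp) hx1 hx2 hu.2⟩
  · rcases nb0 hb with rfl | rfl | rfl | rfl
    · exact Or.inr ⟨L2 (by simp) hy2 hd.1, L2 (by simp) hy2 hd.2⟩
    · exact Or.inl ⟨by simp, by simp⟩
    · exact Or.inl ⟨by simp, by simp⟩
    · exact Or.inl ⟨by simp, by simp⟩
  · rcases nb8 hb with rfl | rfl | rfl | rfl | rfl
    · exact Or.inl ⟨by simp, by simp⟩
    · exact Or.inl ⟨by simp, by simp⟩
    · exact Or.inr ⟨L1 (by simp) hd.1, L1 (by simp) hd.2⟩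
    · exact Or.inr ⟨L1 (by simp) hu.1, L1 (by simp) hu.2⟩
    · exact Or.inl ⟨by simp, by simp⟩
  · rcases nb9 hb with rfl | rfl | rfl | rfl
    · exact Or.inl ⟨by simp, by simp⟩
    · exact Or.inl ⟨by simp, by simp⟩
    · exact Or.inr ⟨L1 (by simp) hd.1, L1 (by simp) hd.2⟩
    · exact Or.inr ⟨L1 (by simp) hu.1, L1 (by simp) hu.2⟩
  · have hok := hb.1
    unfold ok at hok
    dsimp only at hok
    rcases nb10 hb with rfl | rfl
    · exact Or.inl ⟨by simp, by simp⟩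
    · have h1 : (GG R C tap).Adj (i + 1, j + 1, 11) (i + 1, j + 1, 16) := (A16_11 (by omega)).symm
      exact Or.inr ⟨L2 (by simp) h1 hd.1, L2 (by simp) h1 hd.2⟩
  · rcases nb7 hb with rfl | rfl | rfl
    · have h1 : (GG R C tap).Adj (i + 1, j, 6) (i + 1, j, 5) := (A5_6 (by omega)).symm
      exact Or.inr ⟨L3 (by simp) h1 hX hu.1, L3 (by simp) h1 hX hu.2⟩
    · exact Or.inl ⟨by simp, by simp⟩
    · exact Or.inr ⟨L3 (by simp) hx1 hx2 hu.1, L3 (by simp) hx1 hx2 hu.2⟩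
  · rcases nb15 hb with rfl | rfl | ⟨rfl, ht⟩
    · exact Or.inr ⟨L1 (by simp) hu.1, L1 (by simp) hu.2⟩
    · exact Or.inl ⟨by simp, by simp⟩
    · exact Or.inl ⟨by simp [ht], by simp⟩
  · rcases nb6 hb with rfl | rfl | ⟨rfl, -⟩
    · exact Or.inr ⟨L2 (by simp) hX hu.1, L2 (by simp) hX hu.2⟩
    · exact Or.inl ⟨by simp, by simp⟩
    · exact Or.inl ⟨by simp, by simp⟩

/-- the edges `Y Y` on the left -/
theorem res_YY {k : ℕ} (h : 2 * k + 2 ≤ R ∧ 0 < C) {w : Lb}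
    (hw : (GG R C tap).edist (2 * k + 1, 0, 2) w ≠ (GG R C tap).edist (2 * k + 2, 0, 2) w) :
    w = (2 * k + 1, 0, 2) ∨ w = (2 * k + 2, 0, 2) ∨ w = (2 * k + 1, 0, 3) ∨
      w = (2 * k + 2, 0, 3) := by
  refine shield (S := fun v => v = (2 * k + 1, 0, 2) ∨ v = (2 * k + 2, 0, 2) ∨
      v = (2 * k + 1, 0, 3) ∨ v = (2 * k + 2, 0, 3))
    (σ := fun v => if v.2.2 = 3 then 1 else 0) (by simp) (by simp) rfl rfl ?_ hw
  have hd : (GG R C tap).Adj (2 * k + 1, 0, 16) (2 * k + 1, 0, 2) ∧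
      (GG R C tap).Adj (2 * k + 1, 0, 16) (2 * k + 2, 0, 2) :=
    ⟨A16_2 (by omega), B16_2 (by omega)⟩
  rintro a (rfl | rfl | rfl | rfl) b hb
  · rcases nb2a hb with rfl | rfl | rfl
    · exact Or.inl ⟨by simp, by simp⟩
    · exact Or.inr ⟨L1 (by simp) hd.1, L1 (by simp) hd.2⟩
    · exact Or.inl ⟨by simp, by simp⟩
  · rcases nb2b hb with rfl | rfl | rfl
    · exact Or.inl ⟨by simp, by simp⟩
    · exact Or.inr ⟨L1 (by simp) hd.1, L1 (by simp) hd.2⟩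
    · exact Or.inl ⟨by simp, by simp⟩
  · rcases nb3 hb with rfl | rfl
    · exact Or.inl ⟨by simp, by simp⟩
    · have h1 : (GG R C tap).Adj (2 * k + 1, 0, 4) (2 * k + 1, 0, 16) := (A16_4 (by omega)).symm
      exact Or.inr ⟨L2 (by simp) h1 hd.1, L2 (by simp) h1 hd.2⟩
  · rcases nb3 hb with rfl | rfl
    · exact Or.inl ⟨by simp, by simp⟩
    · have h1 : (GG R C tap).Adj (2 * k + 2, 0, 4) (2 * k + 1, 0, 16) := (B16_4 (by omega)).symm
      exact Or.inr ⟨L2 (by simp) h1 hd.1, L2 (by simp) h1 hd.2⟩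

end Pool.Agent.Z85.LMD
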