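import Pool.Agent.Z85.LMD.Shield

/-!
# A small local metric generator of the grid graph gives a satisfying assignment
-/

set_option autoImplicit false

namespace Pool.Agent.Z85.LMD

variable {R C : ℕ} {tap : ℕ → ℕ → Prop}

/-- the budget -/
def KK (R C : ℕ) : ℕ := (R + 1) * (C + 1) + R * C + (R - 1) * C

/-- the owner of a landmark -/
def own (v : Lb) : ℕ × ℕ × ℕ :=
  if v.2.2 = 17 ∨ v.2.2 = 18 then (0, v.1, v.2.1) else
  if v.2.2 = 3 ∨ v.2.2 = 4 ∨ v.2.2 = 5 ∨ v.2.2 = 6 then (1, v.1, v.2.1) else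
  if v.2.2 = 10 ∨ v.2.2 = 11 ∨ v.2.2 = 12 ∨ v.2.2 = 13 then (2, v.1, v.2.1) else (3, 0, 0)

/-- the owners -/
def Idx (R C : ℕ) : Finset (ℕ × ℕ × ℕ) :=
  (Finset.range (R + 1) ×ˢ Finset.range (C + 1)).image (fun p => (0, p.1, p.2)) ∪
  (Finset.range R ×ˢ Finset.range C).image (fun p => (1, p.1 + 1, p.2)) ∪
  (Finset.range (R - 1) ×ˢ Finset.range C).image (fun p => (2, p.1 + 1, p.2 + 1))

theorem mem_Idx {k i j : ℕ} : (k, i, j) ∈ Idx R C ↔
    (k = 0 ∧ i ≤ R ∧ j ≤ C) ∨ (k = 1 ∧ 1 ≤ i ∧ i ≤ R ∧ j < C) ∨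
    (k = 2 ∧ 1 ≤ i ∧ i < R ∧ 1 ≤ j ∧ j ≤ C) := by
  unfold Idx
  simp only [Finset.mem_union, Finset.mem_image, Finset.mem_product, Finset.mem_range,
    Prod.exists, Prod.mk.injEq]
  constructor
  · rintro ((⟨a, b, ⟨h1, h2⟩, rfl, rfl, rfl⟩ | ⟨a, b, ⟨h1, h2⟩, rfl, rfl, rfl⟩) |
      ⟨a, b, ⟨h1, h2⟩, rfl, rfl, rfl⟩)
    · omega
    · omega
    · omega
  · rintro (⟨rfl, h1, h2⟩ | ⟨rfl, h1, h2, h3⟩ | ⟨rfl, h1, h2, h3, h4⟩)
    · exact Or.inl (Or.inl ⟨i, j, ⟨by omega, by omega⟩, rfl, rfl, rfl⟩)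
    · exact Or.inl (Or.inr ⟨i - 1, j, ⟨by omega, by omega⟩, rfl, by omega, rfl⟩)
    · exact Or.inr ⟨i - 1, j - 1, ⟨by omega, by omega⟩, rfl, by omega, by omega⟩

theorem card_Idx : (Idx R C).card = KK R C := by
  unfold Idx KK
  rw [Finset.card_union_of_disjoint, Finset.card_union_of_disjoint, Finset.card_image_of_injective,
    Finset.card_image_of_injective, Finset.card_image_of_injective, Finset.card_product,
    Finset.card_product, Finset.card_product]
  · simp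
  · rintro ⟨a, b⟩ ⟨c, d⟩ h
    simpa using h
  · rintro ⟨a, b⟩ ⟨c, d⟩ h
    simpa using h
  · rintro ⟨a, b⟩ ⟨c, d⟩ h
    simpa using h
  · rw [Finset.disjoint_left]
    rintro ⟨k, i, j⟩ h1 h2
    simp only [Finset.mem_image, Prod.exists, Prod.mk.injEq] at h1 h2
    obtain ⟨_, _, _, h3, _⟩ := h1
    obtain ⟨_, _, _, h4, _⟩ := h2
    omega
  · rw [Finset.disjoint_left]
    rintro ⟨k, i, j⟩ h1 h2
    simp only [Finset.mem_union, Finset.mem_image, Prod.exists, Prod.mk.injEq] at h1 h2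
    obtain ⟨_, _, _, h4, _⟩ := h2
    rcases h1 with ⟨_, _, _, h3, _⟩ | ⟨_, _, _, h3, _⟩ <;> omega

theorem own_facts {W : Finset Lb} (hW : W.card ≤ KK R C) (hg : IsLocalGen (GG R C tap) W) :
    (∀ w ∈ W, own w ∈ Idx R C) ∧ (∀ w ∈ W, ∀ w' ∈ W, own w = own w' → w = w') := by
  have hsub : Idx R C ⊆ W.image own := by
    rintro ⟨k, i, j⟩ h
    rw [mem_Idx] at h
    rw [Finset.mem_image]
    rcases h with ⟨rfl, h1, h2⟩ | ⟨rfl, h1, h2, h3⟩ | ⟨rfl, h1, h2, h3, h4⟩
    · obtain ⟨w, hw, hne⟩ := hg _ _ (A17_18 (tap := tap) ⟨h1, h2⟩)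
      refine ⟨w, hw, ?_⟩
      rcases res_ab ⟨h1, h2⟩ hne with rfl | rfl <;> simp [own]
    · obtain ⟨i, rfl⟩ : ∃ i', i = i' + 1 := ⟨i - 1, by omega⟩
      obtain ⟨w, hw, hne⟩ := hg (i + 1, j, 4) (i + 1, j, 5) (A4_5 (by omega))
      refine ⟨w, hw, ?_⟩
      rcases res_xX (by omega) hne with rfl | rfl | rfl | rfl <;> simp [own]
    · obtain ⟨j, rfl⟩ : ∃ j', j = j' + 1 := ⟨j - 1, by omega⟩
      obtain ⟨w, hw, hne⟩ := hg (i, j + 1, 11) (i, j + 1, 12) (A11_12 (by omega))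
      refine ⟨w, hw, ?_⟩
      rcases res_uU (by omega) hne with rfl | rfl | rfl | rfl <;> simp [own]
  have h1 : (W.image own).card ≤ W.card := Finset.card_image_le
  have h2 : (Idx R C).card ≤ (W.image own).card := Finset.card_le_card hsub
  rw [card_Idx] at h2
  have h3 : Idx R C = W.image own :=
    Finset.eq_of_subset_of_card_le hsub (by rw [card_Idx]; omega)
  constructor
  · intro w hw
    rw [h3]
    exact Finset.mem_image_of_mem _ hw
  · intro w hw w' hw' h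
    exact Finset.card_image_iff.1 (by omega) hw hw' h

theorem sound (hR : 1 ≤ R) {W : Finset Lb} (hW : W.card ≤ KK R C)
    (hg : IsLocalGen (GG R C tap) W) :
    ∃ L : ℕ → Prop, (∀ k, 2 * k + 2 ≤ R → 0 < C → ¬ (L (2 * k + 1) ∧ L (2 * k + 2))) ∧
      ∀ j < C, ∃ i, 1 ≤ i ∧ i ≤ R ∧ tap i j ∧ L i := by
  obtain ⟨ho, hinj⟩ := own_facts hW hg
  have hPQ : ∀ i j, (i, j, 3) ∈ W → (i, j, 6) ∈ W → False := by
    intro i j h1 h2
    have := hinj _ h1 _ h2 (by simp [own])
    simp at this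
  have hpR : ∀ i j, (i, j, 10) ∈ W → (i, j, 13) ∈ W → False := by
    intro i j h1 h2
    have := hinj _ h1 _ h2 (by simp [own])
    simp at this
  have hn : ∀ {i j t : ℕ}, (i, j, t) ∈ W → (t = 0 ∨ t = 1 ∨ t = 2 ∨ t = 7 ∨ t = 8 ∨ t = 9 ∨
      t = 14 ∨ t = 15) → False := by
    intro i j t h ht
    have h1 := ho _ h
    have h2 : own (i, j, t) = (3, 0, 0) := by
      unfold own
      dsimp only
      rw [if_neg (by omega), if_neg (by omega), if_neg (by omega)]
    rw [h2, mem_Idx] at h1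
    omega
  have hy : ∀ i j, i + 1 ≤ R → j + 1 < C → (i + 1, j, 6) ∈ W ∨ (i + 1, j + 1, 3) ∈ W := by
    intro i j hi hj
    obtain ⟨w, hw, hne⟩ := hg (i + 1, j + 1, 1) (i + 1, j + 1, 2) (A1_2 (by omega))
    rcases res_yY (by omega) hne with rfl | rfl | rfl | rfl | rfl | rfl
    · exact Or.inl hw
    · exact (hn hw (by omega)).elim
    · exact (hn hw (by omega)).elim
    · exact (hn hw (by omega)).elim
    · exact (hn hw (by omega)).elim
    · exact Or.inr hw
  have hz : ∀ i j, i + 1 ≤ R → j + 1 ≤ C → (i, j + 1, 13) ∈ W ∨ (i + 1, j + 1, 10) ∈ W ∨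
      ((i + 1, j, 6) ∈ W ∧ tap (i + 1) j) := by
    intro i j hi hj
    obtain ⟨w, hw, hne⟩ := hg (i + 1, j + 1, 8) (i + 1, j + 1, 9) (A8_9 (by omega))
    rcases res_zZ (by omega) hne with rfl | rfl | rfl | rfl | rfl | rfl | rfl | rfl | ⟨rfl, ht⟩
    · exact Or.inl hw
    · exact (hn hw (by omega)).elim
    · exact (hn hw (by omega)).elim
    · exact (hn hw (by omega)).elim
    · exact (hn hw (by omega)).elim
    · exact Or.inr (Or.inl hw)
    · exact (hn hw (by omega)).elim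
    · exact (hn hw (by omega)).elim
    · exact Or.inr (Or.inr ⟨hw, ht⟩)
  have hY : ∀ k, 2 * k + 2 ≤ R → 0 < C → (2 * k + 1, 0, 3) ∈ W ∨ (2 * k + 2, 0, 3) ∈ W := by
    intro k hk hC
    obtain ⟨w, hw, hne⟩ := hg (2 * k + 1, 0, 2) (2 * k + 2, 0, 2) (B2_2 (by omega))
    rcases res_YY (by omega) hne with rfl | rfl | rfl | rfl
    · exact (hn hw (by omega)).elim
    · exact (hn hw (by omega)).elim
    · exact Or.inl hw
    · exact Or.inr hw
  refine ⟨fun i => (i, 0, 6) ∈ W, ?_, ?_⟩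
  · rintro k hk hC ⟨h1, h2⟩
    rcases hY k hk hC with h3 | h3
    · exact hPQ _ _ h3 h1
    · exact hPQ _ _ h3 h2
  · intro j hj
    have hrow : ∀ i, i + 1 ≤ R → ∀ j < C, (i + 1, j, 6) ∈ W → (i + 1, 0, 6) ∈ W := by
      intro i hi j
      induction j with
      | zero => exact fun _ h => h
      | succ j ih =>
        intro hj h
        rcases hy i j hi hj with h1 | h1
        · exact ih (by omega) h1
        · exact (hPQ _ _ h1 h).elim
    by_contra hcon
    push Not at hcon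
    have hno : ∀ i, i + 1 ≤ R → ¬ ((i + 1, j, 6) ∈ W ∧ tap (i + 1) j) := by
      rintro i hi ⟨h1, h2⟩
      exact hcon (i + 1) (by omega) hi h2 (hrow i hi j hj h1)
    have hcol : ∀ d < R, (R - 1 - d, j + 1, 13) ∈ W := by
      intro d
      induction d with
      | zero =>
        intro _
        rcases hz (R - 1) j (by omega) (by omega) with h | h | h
        · simpa using h
        · have h1 := ho _ h
          have h2 : own (R - 1 + 1, j + 1, 10) = (2, R, j + 1) := by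
            simp [own]
            omega
          rw [h2, mem_Idx] at h1
          omega
        · exact (hno _ (by omega) h).elim
      | succ d ih =>
        intro hd
        have h := ih (by omega)
        rcases hz (R - 1 - (d + 1)) j (by omega) (by omega) with h1 | h1 | h1
        · exact h1
        · rw [show R - 1 - (d + 1) + 1 = R - 1 - d by omega] at h1
          exact (hpR _ _ h1 h).elim
        · exact (hno _ (by omega) h1).elim
    have h := ho _ (hcol (R - 1) (by omega))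
    have h2 : own (R - 1 - (R - 1), j + 1, 13) = (2, 0, j + 1) := by
      simp [own]
    rw [h2, mem_Idx] at h
    omega

end Pool.Agent.Z85.LMD
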