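import Pool.Agent.Z85.LMD.Plane2
import Pool.Agent.Z85.LMD.Complete2

/-!
# From labels to `Fin n`
-/

set_option autoImplicit false

namespace Pool.Agent.Z85.LMD

section general

variable {V U : Type} {G : SimpleGraph V} {ℓ : U → V}

theorem walk_range (hcl : ∀ i w, G.Adj (ℓ i) w → ∃ j, ℓ j = w) {a b : V} (p : G.Walk a b)
    (i : U) (hi : ℓ i = a) : ∃ (j : U) (q : (G.comap ℓ).Walk i j), ℓ j = b ∧
      q.length = p.length := by
  induction p generalizing i with
  | nil => exact ⟨i, SimpleGraph.Walk.nil, hi, rfl⟩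
  | @cons a c b h p ih =>
    subst hi
    obtain ⟨k, rfl⟩ := hcl i c h
    obtain ⟨j, q, h1, h2⟩ := ih k rfl
    have h' : (G.comap ℓ).Adj i k := h
    exact ⟨j, SimpleGraph.Walk.cons h' q, h1, by
      rw [SimpleGraph.Walk.length_cons, SimpleGraph.Walk.length_cons, h2]⟩

theorem edist_comap (hinj : Function.Injective ℓ)
    (hcl : ∀ i w, G.Adj (ℓ i) w → ∃ j, ℓ j = w) (i j : U) :
    (G.comap ℓ).edist i j = G.edist (ℓ i) (ℓ j) := by
  apply le_antisymm
  · apply le_iInf
    intro p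
    obtain ⟨j', q, h1, h2⟩ := walk_range hcl p i rfl
    have h3 := hinj h1
    subst h3
    rw [← h2]
    exact q.edist_le
  · apply le_iInf
    intro p
    let f : G.comap ℓ →g G := ⟨ℓ, fun h => h⟩
    have h := (p.map f).edist_le
    rw [SimpleGraph.Walk.length_map] at h
    exact h

theorem localGen_transfer [Fintype U] (hinj : Function.Injective ℓ)
    (hcl : ∀ i w, G.Adj (ℓ i) w → ∃ j, ℓ j = w)
    (hall : ∀ v w, G.Adj v w → ∃ i, ℓ i = v) (k : ℕ) :
    (∃ W : Finset U, IsLocalGen (G.comap ℓ) W ∧ W.card ≤ k) ↔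
      ∃ W : Finset V, W.card ≤ k ∧ IsLocalGen G W := by
  classical
  constructor
  · rintro ⟨W, hW, hk⟩
    refine ⟨W.image ℓ, Finset.card_image_le.trans hk, ?_⟩
    intro u v huv
    obtain ⟨i, rfl⟩ := hall u v huv
    obtain ⟨j, rfl⟩ := hcl i v huv
    obtain ⟨w, hw, h1⟩ := hW i j huv
    rw [edist_comap hinj hcl, edist_comap hinj hcl] at h1
    exact ⟨ℓ w, Finset.mem_image_of_mem _ hw, h1⟩
  · rintro ⟨W, hk, hW⟩
    refine ⟨Finset.univ.filter (fun i => ℓ i ∈ W), ?_, ?_⟩
    · intro i j hij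
      obtain ⟨w, hw, h1⟩ := hW (ℓ i) (ℓ j) hij
      have h2 : ∃ a, ℓ a = w := by
        by_cases h3 : G.edist (ℓ i) w = ⊤
        · have h4 : G.edist (ℓ j) w ≠ ⊤ := fun h4 => h1 (h3.trans h4.symm)
          obtain ⟨p, -⟩ := SimpleGraph.exists_walk_of_edist_ne_top h4
          obtain ⟨a, -, h5, -⟩ := walk_range hcl p j rfl
          exact ⟨a, h5⟩
        · obtain ⟨p, -⟩ := SimpleGraph.exists_walk_of_edist_ne_top h3
          obtain ⟨a, -, h5, -⟩ := walk_range hcl p i rfl
          exact ⟨a, h5⟩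
      obtain ⟨a, rfl⟩ := h2
      refine ⟨a, by simp [hw], ?_⟩
      rw [edist_comap hinj hcl, edist_comap hinj hcl]
      exact h1
    · refine (Finset.card_le_card_of_injOn ℓ ?_ hinj.injOn).trans hk
      intro i hi
      simpa using hi

theorem localDim_le_iff [Fintype U] (H : SimpleGraph U) (k : ℕ) :
    localDim H ≤ k ↔ ∃ W : Finset U, IsLocalGen H W ∧ W.card ≤ k := by
  have hne : {k | ∃ W : Finset U, IsLocalGen H W ∧ W.card = k}.Nonempty := by
    refine ⟨Finset.univ.card, Finset.univ, ?_, rfl⟩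
    exact fun u v h => ⟨u, Finset.mem_univ _, res_end h⟩
  constructor
  · intro h
    obtain ⟨W, h1, h2⟩ := Nat.sInf_mem hne
    exact ⟨W, h1, by rw [h2]; exact h⟩
  · rintro ⟨W, h1, h2⟩
    unfold localDim
    refine (Nat.sInf_le (m := W.card) ?_).trans h2
    exact ⟨W, h1, rfl⟩

end general

variable {R C : ℕ} {tap : ℕ → ℕ → Prop}

/-- the grid graph has a small local metric generator if and only if the constraints can be
satisfied -/
theorem grid_iff (hR : 1 ≤ R) (hC : 1 ≤ C) :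
    (∃ W : Finset Lb, W.card ≤ KK R C ∧ IsLocalGen (GG R C tap) W) ↔
      ∃ L : ℕ → Prop, (∀ k, 2 * k + 2 ≤ R → ¬ (L (2 * k + 1) ∧ L (2 * k + 2))) ∧
        ∀ j < C, ∃ i, 1 ≤ i ∧ i ≤ R ∧ tap i j ∧ L i := by
  constructor
  · rintro ⟨W, h1, h2⟩
    obtain ⟨L, h3, h4⟩ := sound hR h1 h2
    exact ⟨L, fun k hk => h3 k hk hC, h4⟩
  · rintro ⟨L, h1, h2⟩
    have h3 : ∀ j, ∃ i, j < C → 1 ≤ i ∧ i ≤ R ∧ tap i j ∧ L i := by
      intro j
      by_cases hj : j < C
      · obtain ⟨i, hi⟩ := h2 j hj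
        exact ⟨i, fun _ => hi⟩
      · exact ⟨0, fun h => absurd h hj⟩
    choose i0 hi0 using h3
    exact ⟨WW R C L i0, WW_card L i0, complete hR hC h1 hi0⟩

/-- the list of the vertices -/
def vts (R C : ℕ) (okb : Lb → Bool) : List Lb :=
  ((List.range (R + 1)) ×ˢ ((List.range (C + 1)) ×ˢ (List.range 19))).filter okb

theorem vts_nodup {okb : Lb → Bool} : (vts R C okb).Nodup := by
  unfold vts
  apply List.Nodup.filter
  exact List.Nodup.product List.nodup_range (List.Nodup.product List.nodup_range List.nodup_range)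

theorem mem_vts {okb : Lb → Bool} (h : ∀ v, okb v = true ↔ ok R C v) {v : Lb} :
    v ∈ vts R C okb ↔ ok R C v := by
  obtain ⟨i, j, t⟩ := v
  unfold vts
  rw [List.mem_filter, h, List.mem_product, List.mem_product, List.mem_range, List.mem_range,
    List.mem_range]
  constructor
  · exact fun h => h.2
  · intro h1
    refine ⟨?_, h1⟩
    unfold ok at h1
    dsimp only at h1 ⊢
    omega

/-- the drawing of the graph given by a list of labels -/
theorem planar_comap {U : Type} {ℓ : U → Lb} (hinj : Function.Injective ℓ)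
    (hok : ∀ i, ok R C (ℓ i)) : IsPlanar ((GG R C tap).comap ℓ) := by
  refine ⟨fun i => posL (ℓ i), ?_, ?_, ?_⟩
  · intro i j h
    exact hinj (posZ_inj (hok i) (hok j) (rp_inj h))
  · intro u v w huv hw
    obtain ⟨-, -, h | h⟩ := huv
    · rcases vert_edge (hok u) (hok v) (hok w) h hw with h1 | h1
      · exact Or.inl (hinj h1)
      · exact Or.inr (hinj h1)
    · rw [segment_symm] at hw
      rcases vert_edge (hok v) (hok u) (hok w) h hw with h1 | h1
      · exact Or.inr (hinj h1)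
      · exact Or.inl (hinj h1)
  · intro u v u' v' huv huv' hne x hx hx'
    have key : ∀ a b a' b' : U, E0 tap (ℓ a) (ℓ b) → E0 tap (ℓ a') (ℓ b') →
        s(a, b) ≠ s(a', b') → x ∈ segment ℝ (posL (ℓ a)) (posL (ℓ b)) →
        x ∈ segment ℝ (posL (ℓ a')) (posL (ℓ b')) →
        ∃ w, x = posL (ℓ w) ∧ (w = a ∨ w = b) ∧ (w = a' ∨ w = b') := by
      intro a b a' b' h1 h2 h3 h4 h5
      rcases edge_meet (hok a) (hok b) (hok a') (hok b') h1 h2 h4 h5 with ⟨h6, h7⟩ |
        ⟨z, h6, h7, h8⟩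
      · exact (h3 (by rw [hinj h6, hinj h7])).elim
      · rcases h7 with rfl | rfl
        · exact ⟨a, h6, Or.inl rfl, by
            rcases h8 with h8 | h8
            · exact Or.inl (hinj h8)
            · exact Or.inr (hinj h8)⟩
        · exact ⟨b, h6, Or.inr rfl, by
            rcases h8 with h8 | h8
            · exact Or.inl (hinj h8)
            · exact Or.inr (hinj h8)⟩
    obtain ⟨-, -, h | h⟩ := huv <;> obtain ⟨-, -, h' | h'⟩ := huv'
    · exact key u v u' v' h h' hne hx hx'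
    · rw [segment_symm] at hx'
      obtain ⟨w, h1, h2, h3⟩ := key u v v' u' h h' (by rwa [Sym2.eq_swap (a := v')]) hx hx'
      exact ⟨w, h1, h2, h3.symm⟩
    · rw [segment_symm] at hx
      obtain ⟨w, h1, h2, h3⟩ := key v u u' v' h h' (by rwa [Sym2.eq_swap (a := v)]) hx hx'
      exact ⟨w, h1, h2.symm, h3⟩
    · rw [segment_symm] at hx hx'
      obtain ⟨w, h1, h2, h3⟩ := key v u v' u' h h'
        (by rwa [Sym2.eq_swap (a := v), Sym2.eq_swap (a := v')]) hx hx'
      exact ⟨w, h1, h2.symm, h3.symm⟩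

end Pool.Agent.Z85.LMD
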